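import Pool.Agent.H654R3.RVV.Gad

/-!
# Completeness
-/

namespace Pool.Agent.H654R3.RVV

/-- The status of a clause. -/
inductive CS (v : ℕ) : Type
  | c0 | c1 | c2 | c3 (i : Fin v) (t : Bool) | c4 (i : Fin v) (t : Bool) | c5

/-- The status of a variable. -/
inductive RS (m : ℕ) : Type
  | r0 | r1 (t : Bool) | r2 (t : Bool) (w : Option (Fin m)) | r3

variable {v m : ℕ}

/-- partner of `K i s` -/
def gK (i : Fin v) (s : Bool) : RS m → Option (V v m)
  | .r0 => some (.C i s)
  | .r1 t => if s = t then some (.C i (!s)) else none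
  | .r2 t _ => if s = t then some (.C i (!s)) else none
  | .r3 => some (.C i (!s))

/-- partner of `C i s` -/
def gC (i : Fin v) (s : Bool) : RS m → Option (V v m)
  | .r0 => some (.K i s)
  | .r1 t => if s = t then none else some (.K i (!s))
  | .r2 t w => if s = t then w.map .A else some (.K i (!s))
  | .r3 => some (.K i (!s))

/-- partner of `A j` -/
def gA (j : Fin m) : CS v → Option (V v m)
  | .c0 => some (.F j)
  | .c1 => some (.Q j)
  | .c2 => some (.Q j)
  | .c3 i t => some (.C i t)
  | .c4 i t => some (.C i t)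
  | .c5 => some (.P j)

/-- partner of `D j` -/
def gD (j : Fin m) : CS v → Option (V v m)
  | .c4 _ _ => some (.Q j)
  | .c5 => some (.Q j)
  | _ => some (.P j)

/-- partner of `P j` -/
def gP (j : Fin m) : CS v → Option (V v m)
  | .c4 _ _ => none
  | .c5 => some (.A j)
  | _ => some (.D j)

/-- partner of `E j` -/
def gE (j : Fin m) : CS v → Option (V v m)
  | .c0 => some (.Q j)
  | .c1 => none
  | _ => some (.F j)

/-- partner of `F j` -/
def gF (j : Fin m) : CS v → Option (V v m)
  | .c0 => some (.A j)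
  | .c1 => none
  | _ => some (.E j)

/-- partner of `Q j` -/
def gQ (j : Fin m) : CS v → Option (V v m)
  | .c0 => some (.E j)
  | .c1 => some (.A j)
  | .c2 => some (.A j)
  | .c3 _ _ => none
  | .c4 _ _ => some (.D j)
  | .c5 => some (.D j)

/-- The matching of a state. -/
def g (rs : Fin v → RS m) (cs : Fin m → CS v) : V v m → Option (V v m)
  | .K i s => gK i s (rs i)
  | .C i s => gC i s (rs i)
  | .A j => gA j (cs j)
  | .D j => gD j (cs j)
  | .E j => gE j (cs j)
  | .P j => gP j (cs j)
  | .Q j => gQ j (cs j)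
  | .F j => gF j (cs j)

/-- is `K i s` in `S`? -/
def sK (s : Bool) : RS m → Prop
  | .r0 => False
  | .r1 t => s = t
  | .r2 t _ => s = t
  | .r3 => True

/-- is `C i s` in `S`? -/
def sC (s : Bool) : RS m → Prop
  | .r0 => False
  | .r1 t => s ≠ t
  | .r2 _ _ => True
  | .r3 => True

/-- are `A j` and `Q j` in `S`? -/
def sA : CS v → Prop
  | .c0 => False
  | _ => True

/-- are `E j` and `F j` in `S`? -/
def sE : CS v → Prop
  | .c0 => False
  | .c1 => False
  | _ => True

/-- is `D j` in `S`? -/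
def sD : CS v → Prop
  | .c4 _ _ => True
  | .c5 => True
  | _ => False

/-- is `P j` in `S`? -/
def sP : CS v → Prop
  | .c5 => True
  | _ => False

/-- The set `S` of a state. -/
def inS (rs : Fin v → RS m) (cs : Fin m → CS v) : Set (V v m)
  | .K i s => sK s (rs i)
  | .C i s => sC s (rs i)
  | .A j => sA (cs j)
  | .D j => sD (cs j)
  | .E j => sE (cs j)
  | .P j => sP (cs j)
  | .Q j => sA (cs j)
  | .F j => sE (cs j)

/-- The state. -/
def St (rs : Fin v → RS m) (cs : Fin m → CS v) : (V v m → V v m → Prop) × Set (V v m) :=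
  (rel (g rs cs), inS rs cs)

section mem
variable (rs : Fin v → RS m) (cs : Fin m → CS v)
@[simp] theorem mem_K (i : Fin v) (s : Bool) : V.K i s ∈ inS rs cs ↔ sK s (rs i) := Iff.rfl
@[simp] theorem mem_C (i : Fin v) (s : Bool) : V.C i s ∈ inS rs cs ↔ sC s (rs i) := Iff.rfl
@[simp] theorem mem_A (j : Fin m) : V.A j ∈ inS rs cs ↔ sA (cs j) := Iff.rfl
@[simp] theorem mem_D (j : Fin m) : V.D j ∈ inS rs cs ↔ sD (cs j) := Iff.rfl
@[simp] theorem mem_E (j : Fin m) : V.E j ∈ inS rs cs ↔ sE (cs j) := Iff.rfl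
@[simp] theorem mem_P (j : Fin m) : V.P j ∈ inS rs cs ↔ sP (cs j) := Iff.rfl
@[simp] theorem mem_Q (j : Fin m) : V.Q j ∈ inS rs cs ↔ sA (cs j) := Iff.rfl
@[simp] theorem mem_F (j : Fin m) : V.F j ∈ inS rs cs ↔ sE (cs j) := Iff.rfl
end mem

theorem join_rel {g g' : V v m → Option (V v m)} {a b : V v m} (hab : a ≠ b)
    (h1 : g' a = some b) (h2 : g' b = some a)
    (h3 : ∀ x, x ≠ a → x ≠ b → g x ≠ some a → g x ≠ some b → g' x = g x)
    (h4 : ∀ x, x ≠ a → x ≠ b → (g x = some a ∨ g x = some b) → g' x = none) :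
    join a b (rel g) = rel g' := by
  funext x y
  apply propext
  unfold rel join unmatch
  by_cases hx : x = a
  · subst hx
    rw [h1]
    constructor
    · rintro (⟨-, rfl⟩ | ⟨e, -⟩ | h)
      · rfl
      · exact absurd e hab
      · exact absurd rfl h.2.1
    · intro h
      exact Or.inl ⟨rfl, (Option.some.inj h).symm⟩
  by_cases hx' : x = b
  · subst hx'
    rw [h2]
    constructor
    · rintro (⟨e, -⟩ | ⟨-, rfl⟩ | h)
      · exact absurd e hx
      · rfl
      · exact absurd rfl h.1.2.1
    · intro h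
      exact Or.inr (Or.inl ⟨rfl, (Option.some.inj h).symm⟩)
  constructor
  · rintro (⟨e, -⟩ | ⟨e, -⟩ | h)
    · exact absurd e hx
    · exact absurd e hx'
    · obtain ⟨⟨e1, e2, e3⟩, e4, e5⟩ := h
      rw [h3 x hx hx' (by rw [e1]; simpa using e5) (by rw [e1]; simpa using e3)]
      exact e1
  · intro h
    right; right
    by_cases hg : g x = some a ∨ g x = some b
    · rw [h4 x hx hx' hg] at h
      simp at h
    · push Not at hg
      rw [h3 x hx hx' hg.1 hg.2] at h
      refine ⟨⟨h, hx', ?_⟩, hx, ?_⟩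
      · rintro rfl
        exact hg.2 h
      · rintro rfl
        exact hg.1 h

theorem join_unmatch {A : Type} {a b : A} {M : A → A → Prop} :
    join a b (unmatch a M) = join a b M := by
  funext x y
  apply propext
  unfold join unmatch
  tauto

variable {I : Mkt (V v m)} {lit : Fin m → Fin v → Bool → Bool}

theorem Good.not_lt (hI : Good I lit) {x y z : V v m} (hy : x.man ≠ y.man) (hz : x.man ≠ z.man)
    (h : x.key lit z < x.key lit y) : ¬ I.r x y < I.r x z := by
  have := hI.key x z y hz hy h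
  omega

/-- In a blocking pair `(x, y)`, `y` does not have a better partner. -/
theorem Blocks.le2 (hI : Good I lit) {M : V v m → V v m → Prop} {x y c : V v m}
    (h : Blocks I M x y) (hc : M y c) (hop : y.man ≠ c.man) :
    y.key lit x ≤ y.key lit c ∧ x ≠ c := by
  have h1 : y.man ≠ x.man := fun e => (hI.opp _ _).1 h.1 e.symm
  refine ⟨?_, ?_⟩
  · by_contra hlt
    push Not at hlt
    exact hI.not_lt h1 hop hlt (h.2.2.2 c hc)
  · rintro rfl
    have := h.2.2.2 x hc
    omega

theorem Blocks.le1 (hI : Good I lit) {M : V v m → V v m → Prop} {x y c : V v m}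
    (h : Blocks I M x y) (hc : M x c) (hop : x.man ≠ c.man) :
    x.key lit y ≤ x.key lit c ∧ y ≠ c := by
  have h1 := (hI.opp _ _).1 h.1
  refine ⟨?_, ?_⟩
  · by_contra hlt
    push Not at hlt
    exact hI.not_lt h1 hop hlt (h.2.2.1 c hc)
  · rintro rfl
    have := h.2.2.1 y hc
    omega

end Pool.Agent.H654R3.RVV
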