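import Pool.Agent.H654R3.RVV.Comp

/-!
# Completeness: the steps in which a pair is formed
-/

namespace Pool.Agent.H654R3.RVV

variable {v m : ℕ} {I : Mkt (V v m)} {lit : Fin m → Fin v → Bool → Bool}

/-- No agent outside `S` blocks with an agent of `S`. -/
theorem nocross (hI : Good I lit) {rs : Fin v → RS m} {cs : Fin m → CS v}
    (hr : ∀ i t w, rs i ≠ .r2 t w) (hc : ∀ j i t, cs j ≠ .c3 i t ∧ cs j ≠ .c4 i t)
    (hl : ∀ j i t, lit j i t = true → cs j = .c1 ∨ cs j = .c2 → rs i ≠ .r1 t) (x y : V v m)
    (hx : x ∉ inS rs cs) (hy : y ∈ inS rs cs) : ¬ Blocks I (rel (g rs cs)) x y := by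
  intro hB
  have hop : y.man ≠ x.man := fun e => (hI.opp _ _).1 hB.1 e.symm
  cases y with
  | K i s =>
    have h1 : g rs cs (.K i s) = some (.C i (!s)) := by
      rw [mem_K] at hy
      rcases hri : rs i with _ | t | ⟨t, w⟩ | _
      · rw [hri] at hy; exact hy.elim
      · rw [hri] at hy; simp only [sK] at hy; subst hy; simp [g, gK, hri]
      · exact absurd hri (hr _ _ _)
      · simp [g, gK, hri]
    have h2 := hB.le2 hI h1 (by simp [V.man])
    cases x with
    | C i' s' =>
      simp only [V.key] at h2
      split_ifs at h2 with h3 h4 h5 h6
      all_goals first
        | (simp at h2; done)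
        | (cases s <;> cases s' <;> simp_all; done)
        | (subst h3; cases s <;> cases s' <;> simp_all; done)
    | _ => simp [V.man, V.key] at h2 hop
  | C i s =>
    have h1 : g rs cs (.C i s) = some (.K i (!s)) := by
      rw [mem_C] at hy
      rcases hri : rs i with _ | t | ⟨t, w⟩ | _
      · rw [hri] at hy; exact hy.elim
      · rw [hri] at hy; simp only [sC] at hy; simp [g, gC, hri, hy]
      · exact absurd hri (hr _ _ _)
      · simp [g, gC, hri]
    have h2 := hB.le2 hI h1 (by simp [V.man])
    cases x with
    | K i' s' =>
      simp only [V.key] at h2
      split_ifs at h2 with h3 h4 h5 h6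
      all_goals first
        | (simp at h2; done)
        | (cases s <;> cases s' <;> simp_all; done)
        | (subst h3; cases s <;> cases s' <;> simp_all; done)
    | _ => simp [V.man, V.key] at h2 hop
  | A j =>
    rw [mem_A] at hy
    have hcj := hc j
    rcases hcs : cs j with _ | _ | _ | ⟨i, t⟩ | ⟨i, t⟩ | _
    · rw [hcs] at hy; exact hy.elim
    all_goals first
      | exact absurd hcs (hc j i t).1
      | exact absurd hcs (hc j i t).2
      | skip
    · have h1 : g rs cs (.A j) = some (.Q j) := by simp [g, gA, hcs]
      have h2 := hB.le2 hI h1 (by simp [V.man])
      cases x with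
      | C i s =>
        simp only [V.key] at h2
        split_ifs at h2 with h3
        · have h4 := hl j i s h3 (Or.inl hcs)
          have h5 : g rs cs (.C i s) = some (.K i s) := by
            rw [mem_C] at hx
            rcases hri : rs i with _ | t | ⟨t, w⟩ | _
            · simp [g, gC, hri]
            · rw [hri] at hx; simp only [sC, ne_eq, not_not] at hx; subst hx
              exact absurd hri h4
            · exact absurd hri (hr _ _ _)
            · rw [hri] at hx; exact absurd trivial hx
          have h6 := hB.le1 hI h5 (by simp [V.man])
          simp [V.key] at h6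
        · simp at h2
      | P j' =>
        simp only [V.key] at h2
        split_ifs at h2 with h3
        · subst h3
          have h5 : g rs cs (.P j) = some (.D j) := by simp [g, gP, hcs]
          have h6 := hB.le1 hI h5 (by simp [V.man])
          simp [V.key] at h6
        all_goals simp at h2
      | Q j' =>
        simp only [V.key] at h2
        split_ifs at h2 with h3
        · subst h3; simp at h2
        all_goals simp_all
      | F j' =>
        simp only [V.key] at h2
        split_ifs at h2 <;> simp at h2
      | _ => simp [V.man] at hop
    · have h1 : g rs cs (.A j) = some (.Q j) := by simp [g, gA, hcs]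
      have h2 := hB.le2 hI h1 (by simp [V.man])
      cases x with
      | C i s =>
        simp only [V.key] at h2
        split_ifs at h2 with h3
        · have h4 := hl j i s h3 (Or.inr hcs)
          have h5 : g rs cs (.C i s) = some (.K i s) := by
            rw [mem_C] at hx
            rcases hri : rs i with _ | t | ⟨t, w⟩ | _
            · simp [g, gC, hri]
            · rw [hri] at hx; simp only [sC, ne_eq, not_not] at hx; subst hx
              exact absurd hri h4
            · exact absurd hri (hr _ _ _)
            · rw [hri] at hx; exact absurd trivial hx
          have h6 := hB.le1 hI h5 (by simp [V.man])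
          simp [V.key] at h6
        · simp at h2
      | P j' =>
        simp only [V.key] at h2
        split_ifs at h2 with h3
        · subst h3
          have h5 : g rs cs (.P j) = some (.D j) := by simp [g, gP, hcs]
          have h6 := hB.le1 hI h5 (by simp [V.man])
          simp [V.key] at h6
        all_goals simp at h2
      | Q j' =>
        simp only [V.key] at h2
        split_ifs at h2 with h3
        · subst h3; simp at h2
        all_goals simp_all
      | F j' =>
        simp only [V.key] at h2
        split_ifs at h2 <;> simp at h2
      | _ => simp [V.man] at hop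
    · have h1 : g rs cs (.A j) = some (.P j) := by simp [g, gA, hcs]
      have h2 := hB.le2 hI h1 (by simp [V.man])
      cases x with
      | C i s =>
        simp only [V.key] at h2
        split_ifs at h2 <;> simp at h2
      | P j' =>
        simp only [V.key] at h2
        split_ifs at h2 with h3
        · subst h3; simp at h2
        all_goals simp_all
      | Q j' =>
        simp only [V.key] at h2
        split_ifs at h2 <;> simp at h2
      | F j' =>
        simp only [V.key] at h2
        split_ifs at h2 <;> simp at h2
      | _ => simp [V.man] at hop
  | D j =>
    rw [mem_D] at hy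
    rcases hcs : cs j with _ | _ | _ | ⟨i, t⟩ | ⟨i, t⟩ | _
    all_goals first
      | (rw [hcs] at hy; exact hy.elim)
      | exact absurd hcs (hc j i t).2
      | skip
    have h1 : g rs cs (.D j) = some (.Q j) := by simp [g, gD, hcs]
    have h2 := hB.le2 hI h1 (by simp [V.man])
    cases x with
    | P j' =>
      simp only [V.key] at h2
      split_ifs at h2 <;> simp at h2
    | Q j' =>
      simp only [V.key] at h2
      split_ifs at h2 with h3
      · subst h3; simp at h2
      all_goals simp_all
    | _ => simp [V.man, V.key] at h2 hop
  | E j =>
    rw [mem_E] at hy
    have h1 : g rs cs (.E j) = some (.F j) := by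
      rcases hcs : cs j with _ | _ | _ | ⟨i, t⟩ | ⟨i, t⟩ | _
      · rw [hcs] at hy; exact hy.elim
      · rw [hcs] at hy; exact hy.elim
      all_goals simp [g, gE, hcs]
    have h2 := hB.le2 hI h1 (by simp [V.man])
    cases x with
    | F j' =>
      simp only [V.key] at h2
      split_ifs at h2 with h3
      · subst h3; simp at h2
      all_goals simp_all
    | Q j' =>
      simp only [V.key] at h2
      split_ifs at h2 <;> simp at h2
    | _ => simp [V.man, V.key] at h2 hop
  | P j =>
    rw [mem_P] at hy
    rcases hcs : cs j with _ | _ | _ | ⟨i, t⟩ | ⟨i, t⟩ | _
    all_goals first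
      | (rw [hcs] at hy; exact hy.elim)
      | skip
    have h1 : g rs cs (.P j) = some (.A j) := by simp [g, gP, hcs]
    have h2 := hB.le2 hI h1 (by simp [V.man])
    cases x with
    | D j' =>
      simp only [V.key] at h2
      split_ifs at h2 with h3
      · subst h3
        rw [mem_D, hcs] at hx
        exact hx trivial
      all_goals simp_all
    | A j' =>
      simp only [V.key] at h2
      split_ifs at h2 with h3
      · subst h3; simp at h2
      all_goals simp_all
    | _ => simp [V.man, V.key] at h2 hop
  | F j =>
    rw [mem_F] at hy
    have h1 : g rs cs (.F j) = some (.E j) := by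
      rcases hcs : cs j with _ | _ | _ | ⟨i, t⟩ | ⟨i, t⟩ | _
      · rw [hcs] at hy; exact hy.elim
      · rw [hcs] at hy; exact hy.elim
      all_goals simp [g, gF, hcs]
    have hne : cs j ≠ .c0 := by
      intro h; rw [h] at hy; exact hy.elim
    have h2 := hB.le2 hI h1 (by simp [V.man])
    cases x with
    | A j' =>
      simp only [V.key] at h2
      split_ifs at h2 with h3
      · subst h3
        rw [mem_A] at hx
        rcases hcs : cs j with _ | _ | _ | ⟨i, t⟩ | ⟨i, t⟩ | _
        · exact hne hcs
        all_goals (rw [hcs] at hx; exact hx trivial)
      all_goals simp_all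
    | E j' =>
      simp only [V.key] at h2
      split_ifs at h2 with h3
      · subst h3; simp at h2
      all_goals simp_all
    | _ => simp [V.man, V.key] at h2 hop
  | Q j =>
    rw [mem_Q] at hy
    rcases hcs : cs j with _ | _ | _ | ⟨i, t⟩ | ⟨i, t⟩ | _
    · rw [hcs] at hy; exact hy.elim
    · have h1 : g rs cs (.Q j) = some (.A j) := by simp [g, gQ, hcs]
      have h2 := hB.le2 hI h1 (by simp [V.man])
      cases x with
      | A j' =>
        simp only [V.key] at h2
        split_ifs at h2 with h3
        · subst h3; simp at h2
        all_goals simp_all
      | D j' => simp only [V.key] at h2; split_ifs at h2 <;> simp at h2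
      | E j' => simp only [V.key] at h2; split_ifs at h2 <;> simp at h2
      | _ => simp [V.man, V.key] at h2 hop
    · have h1 : g rs cs (.Q j) = some (.A j) := by simp [g, gQ, hcs]
      have h2 := hB.le2 hI h1 (by simp [V.man])
      cases x with
      | A j' =>
        simp only [V.key] at h2
        split_ifs at h2 with h3
        · subst h3; simp at h2
        all_goals simp_all
      | D j' => simp only [V.key] at h2; split_ifs at h2 <;> simp at h2
      | E j' => simp only [V.key] at h2; split_ifs at h2 <;> simp at h2
      | _ => simp [V.man, V.key] at h2 hop
    · exact absurd hcs (hc j i t).1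
    · exact absurd hcs (hc j i t).2
    · have h1 : g rs cs (.Q j) = some (.D j) := by simp [g, gQ, hcs]
      have h2 := hB.le2 hI h1 (by simp [V.man])
      cases x with
      | A j' =>
        simp only [V.key] at h2
        split_ifs at h2 with h3
        · subst h3; rw [mem_A, hcs] at hx; exact hx trivial
        all_goals simp_all
      | D j' =>
        simp only [V.key] at h2
        split_ifs at h2 with h3
        · subst h3; simp at h2
        all_goals simp_all
      | E j' =>
        simp only [V.key] at h2
        split_ifs at h2 with h3
        · subst h3; rw [mem_E, hcs] at hx; exact hx trivial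
        all_goals simp_all
      | _ => simp [V.man, V.key] at h2 hop

end Pool.Agent.H654R3.RVV
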