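import Pool.Agent.H654R3.RVV.Comp2

/-!
# Completeness: the first steps
-/

namespace Pool.Agent.H654R3.RVV

variable {v m : ℕ} {I : Mkt (V v m)} {lit : Fin m → Fin v → Bool → Bool}

/-- a blocking pair, by rough ranks -/
theorem blocks_of (hI : Good I lit) {g : V v m → Option (V v m)} {a b : V v m}
    (hab : a.man ≠ b.man) (hn : g a ≠ some b)
    (ha : ∀ c, g a = some c → a.man ≠ c.man ∧ a.key lit b < a.key lit c)
    (hb : ∀ c, g b = some c → b.man ≠ c.man ∧ b.key lit a < b.key lit c) :
    Blocks I (rel g) a b :=
  ⟨(hI.opp _ _).2 hab, hn, fun c hc => hI.key _ _ _ hab (ha c hc).1 (ha c hc).2,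
    fun c hc => hI.key _ _ _ hab.symm (hb c hc).1 (hb c hc).2⟩

theorem step_AQ (hI : Good I lit) {cs : Fin m → CS v}
    (hc : ∀ j, cs j = .c0 ∨ cs j = .c2) {j : Fin m} (hj : cs j = .c0) :
    Step I (St (fun _ => .r0) cs) (St (fun _ => .r0) (Function.update cs j .c1)) := by
  have h1 : join (.A j) (.Q j) (rel (g (fun _ => .r0) cs)) =
      rel (g (fun _ => .r0) (Function.update cs j .c1)) := by
    refine join_rel (by simp) (by simp [g, gA]) (by simp [g, gQ]) ?_ ?_
    · intro x h1 h2 h3 h4
      cases x with
      | K i s => rfl
      | C i s => rfl
      | _ j' =>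
        by_cases h : j' = j
        · subst h
          simp_all [g, gA, gD, gE, gP, gQ, gF]
        · simp [g, Function.update_of_ne h]
    · intro x h1 h2 h3
      cases x with
      | K i s => simp [g, gK] at h3
      | C i s => simp [g, gC] at h3
      | _ j' =>
        by_cases h : j' = j
        · subst h
          simp_all [g, gA, gD, gE, gP, gQ, gF]
        · exfalso
          rcases hc j' with h5 | h5 <;> simp_all [g, gA, gD, gE, gP, gQ, gF]
  have h2 : insert (V.A j) (insert (V.Q j) (inS (fun _ => .r0) cs)) =
      inS (fun _ => .r0) (Function.update cs j .c1) := by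
    ext x
    rw [Set.mem_insert_iff, Set.mem_insert_iff]
    cases x with
    | K i s => simp
    | C i s => simp
    | _ j' =>
      by_cases h : j' = j
      · subst h
        simp [hj, sA, sE, sD, sP]
      · simp [Function.update_of_ne h, h]
  have h3 := Step.pair (I := I) (M := rel (g (fun _ => .r0) cs)) (S := inS (fun _ => .r0) cs)
    (a := .A j) (b := .Q j)
    (nocross hI (by simp) (fun j' i t => by rcases hc j' with h | h <;> simp [h])
      (fun j' i t _ _ => by simp))
    (blocks_of hI (by simp [V.man]) (by simp [g, gA, hj])
      (by intro c hc; simp only [g, gA, hj, Option.some.injEq] at hc; subst hc; simp [V.man, V.key])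
      (by intro c hc; simp only [g, gQ, hj, Option.some.injEq] at hc; subst hc; simp [V.man, V.key]))
  rw [h1, h2] at h3
  exact h3

theorem step_EF (hI : Good I lit) {cs : Fin m → CS v} {j : Fin m}
    (hc : ∀ j', j' ≠ j → cs j' = .c0 ∨ cs j' = .c2) (hj : cs j = .c1) :
    Step I (St (fun _ => .r0) cs) (St (fun _ => .r0) (Function.update cs j .c2)) := by
  have hc' : ∀ j', cs j' = .c0 ∨ cs j' = .c1 ∨ cs j' = .c2 := by
    intro j'
    by_cases h : j' = j
    · subst h; exact Or.inr (Or.inl hj)
    · rcases hc j' h with h | h
      · exact Or.inl h
      · exact Or.inr (Or.inr h)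
  have h1 : join (.E j) (.F j) (rel (g (fun _ => .r0) cs)) =
      rel (g (fun _ => .r0) (Function.update cs j .c2)) := by
    refine join_rel (by simp) (by simp [g, gE]) (by simp [g, gF]) ?_ ?_
    · intro x h1 h2 h3 h4
      cases x with
      | K i s => rfl
      | C i s => rfl
      | _ j' =>
        by_cases h : j' = j
        · subst h
          simp_all [g, gA, gD, gE, gP, gQ, gF]
        · simp [g, Function.update_of_ne h]
    · intro x h1 h2 h3
      cases x with
      | K i s => simp [g, gK] at h3
      | C i s => simp [g, gC] at h3
      | _ j' =>
        by_cases h : j' = j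
        · subst h
          simp_all [g, gA, gD, gE, gP, gQ, gF]
        · exfalso
          rcases hc j' h with h5 | h5 <;> simp_all [g, gA, gD, gE, gP, gQ, gF]
  have h2 : insert (V.E j) (insert (V.F j) (inS (fun _ => .r0) cs)) =
      inS (fun _ => .r0) (Function.update cs j .c2) := by
    ext x
    rw [Set.mem_insert_iff, Set.mem_insert_iff]
    cases x with
    | K i s => simp
    | C i s => simp
    | _ j' =>
      by_cases h : j' = j
      · subst h
        simp [hj, sA, sE, sD, sP]
      · simp [Function.update_of_ne h, h]
  have h3 := Step.pair (I := I) (M := rel (g (fun _ => .r0) cs)) (S := inS (fun _ => .r0) cs)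
    (a := .E j) (b := .F j)
    (nocross hI (by simp) (fun j' i t => by rcases hc' j' with h | h | h <;> simp [h])
      (fun j' i t _ _ => by simp))
    (blocks_of hI (by simp [V.man]) (by simp [g, gE, hj])
      (by intro c hc; simp [g, gE, hj] at hc)
      (by intro c hc; simp [g, gF, hj] at hc))
  rw [h1, h2] at h3
  exact h3

theorem phase1 (hI : Good I lit) (T : Finset (Fin m)) :
    Relation.ReflTransGen (Step I) (St (fun _ => .r0) (fun _ => .c0))
      (St (fun _ => .r0) (fun j => if j ∈ T then .c2 else .c0)) := by
  classical
  induction T using Finset.induction_on with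
  | empty => simp only [Finset.notMem_empty, if_false]; exact Relation.ReflTransGen.refl
  | insert j T hj ih =>
    refine (ih.tail (step_AQ hI (fun j' => by split_ifs <;> simp) (j := j) (by simp [hj]))).tail ?_
    have h := step_EF hI (cs := Function.update (fun j => if j ∈ T then CS.c2 else CS.c0) j .c1)
      (j := j) (fun j' h => by rw [Function.update_of_ne h]; split_ifs <;> simp) (by simp)
    have e : Function.update (Function.update (fun j => if j ∈ T then CS.c2 else CS.c0) j .c1) j .c2 =
        (fun j' => if j' ∈ insert j T then (CS.c2 : CS v) else CS.c0) := by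
      funext j'
      by_cases h : j' = j
      · subst h; simp
      · simp [Function.update_of_ne h, h]
    rw [e] at h
    exact h

theorem step_root (hI : Good I lit) {rs : Fin v → RS m} {cs : Fin m → CS v}
    (hr : ∀ i, rs i = .r0 ∨ rs i = .r3) (hc : ∀ j, cs j = .c2 ∨ cs j = .c5) {i : Fin v}
    (hi : rs i = .r0) (t : Bool) :
    Step I (St rs cs) (St (Function.update rs i (.r1 t)) cs) := by
  have h1 : join (.K i t) (.C i (!t)) (rel (g rs cs)) =
      rel (g (Function.update rs i (.r1 t)) cs) := by
    refine join_rel (by simp) (by simp [g, gK]) (by simp [g, gC]) ?_ ?_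
    · intro x h1 h2 h3 h4
      cases x with
      | K i' s =>
        by_cases h : i' = i
        · subst h
          cases s <;> cases t <;> simp_all [g, gK]
        · simp [g, Function.update_of_ne h]
      | C i' s =>
        by_cases h : i' = i
        · subst h
          cases s <;> cases t <;> simp_all [g, gC]
        · simp [g, Function.update_of_ne h]
      | _ j' => rfl
    · intro x h1 h2 h3
      cases x with
      | K i' s =>
        by_cases h : i' = i
        · subst h
          cases s <;> cases t <;> simp_all [g, gK]
        · exfalso
          rcases hr i' with h5 | h5 <;> simp_all [g, gK]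
      | C i' s =>
        by_cases h : i' = i
        · subst h
          cases s <;> cases t <;> simp_all [g, gC]
        · exfalso
          rcases hr i' with h5 | h5 <;> simp_all [g, gC]
      | _ j' =>
        exfalso
        rcases hc j' with h5 | h5 <;> simp_all [g, gA, gD, gE, gP, gQ, gF]
  have h2 : insert (V.K i t) (insert (V.C i (!t)) (inS rs cs)) =
      inS (Function.update rs i (.r1 t)) cs := by
    ext x
    rw [Set.mem_insert_iff, Set.mem_insert_iff]
    cases x with
    | K i' s =>
      by_cases h : i' = i
      · subst h
        simp [hi, sK]
      · simp [Function.update_of_ne h, h]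
    | C i' s =>
      by_cases h : i' = i
      · subst h
        cases s <;> cases t <;> simp [hi, sC]
      · simp [Function.update_of_ne h, h]
    | _ j' => simp
  have h3 := Step.pair (I := I) (M := rel (g rs cs)) (S := inS rs cs)
    (a := .K i t) (b := .C i (!t))
    (nocross hI (fun i t w => by rcases hr i with h | h <;> simp [h])
      (fun j' i t => by rcases hc j' with h | h <;> simp [h])
      (fun j' i t _ _ => by rcases hr i with h | h <;> simp [h]))
    (blocks_of hI (by simp [V.man]) (by simp [g, gK, hi])
      (by
        intro c hc
        simp only [g, gK, hi, Option.some.injEq] at hc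
        subst hc
        cases t <;> simp [V.man, V.key])
      (by
        intro c hc
        simp only [g, gC, hi, Option.some.injEq] at hc
        subst hc
        cases t <;> simp [V.man, V.key]))
  rw [h1, h2] at h3
  exact h3

theorem step_root2 (hI : Good I lit) {rs : Fin v → RS m} {cs : Fin m → CS v} {i : Fin v}
    {t : Bool} (hr : ∀ i', i' ≠ i → rs i' = .r0 ∨ rs i' = .r3) (hc : ∀ j, cs j = .c2 ∨ cs j = .c5)
    (hi : rs i = .r1 t) (hl : ∀ j, cs j = .c2 → lit j i t = false) :
    Step I (St rs cs) (St (Function.update rs i .r3) cs) := by
  have h1 : join (.K i (!t)) (.C i t) (rel (g rs cs)) =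
      rel (g (Function.update rs i .r3) cs) := by
    refine join_rel (by simp) (by simp [g, gK]) (by simp [g, gC]) ?_ ?_
    · intro x h1 h2 h3 h4
      cases x with
      | K i' s =>
        by_cases h : i' = i
        · subst h
          cases s <;> cases t <;> simp_all [g, gK]
        · simp [g, Function.update_of_ne h]
      | C i' s =>
        by_cases h : i' = i
        · subst h
          cases s <;> cases t <;> simp_all [g, gC]
        · simp [g, Function.update_of_ne h]
      | _ j' => rfl
    · intro x h1 h2 h3
      exfalso
      cases x with
      | K i' s =>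
        by_cases h : i' = i
        · subst h
          cases s <;> cases t <;> simp_all [g, gK]
        · rcases hr i' h with h5 | h5 <;> simp_all [g, gK]
      | C i' s =>
        by_cases h : i' = i
        · subst h
          cases s <;> cases t <;> simp_all [g, gC]
        · rcases hr i' h with h5 | h5 <;> simp_all [g, gC]
      | _ j' =>
        rcases hc j' with h5 | h5 <;> simp_all [g, gA, gD, gE, gP, gQ, gF]
  have h2 : insert (V.K i (!t)) (insert (V.C i t) (inS rs cs)) =
      inS (Function.update rs i .r3) cs := by
    ext x
    rw [Set.mem_insert_iff, Set.mem_insert_iff]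
    cases x with
    | K i' s =>
      by_cases h : i' = i
      · subst h
        cases s <;> cases t <;> simp [hi, sK]
      · simp [Function.update_of_ne h, h]
    | C i' s =>
      by_cases h : i' = i
      · subst h
        cases s <;> cases t <;> simp [hi, sC]
      · simp [Function.update_of_ne h, h]
    | _ j' => simp
  have h3 := Step.pair (I := I) (M := rel (g rs cs)) (S := inS rs cs)
    (a := .K i (!t)) (b := .C i t)
    (nocross hI
      (fun i' t w => by
        by_cases h : i' = i
        · subst h; simp [hi]
        · rcases hr i' h with h | h <;> simp [h])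
      (fun j' i t => by rcases hc j' with h | h <;> simp [h])
      (fun j' i' t' h4 h5 => by
        by_cases h : i' = i
        · subst h
          rw [hi]
          intro e
          cases e
          rcases hc j' with h6 | h6
          · rw [hl j' h6] at h4
            simp at h4
          · rw [h6] at h5
            simp at h5
        · rcases hr i' h with h | h <;> simp [h]))
    (blocks_of hI (by simp [V.man]) (by simp [g, gK, hi])
      (by intro c hc; simp [g, gK, hi] at hc)
      (by intro c hc; simp [g, gC, hi] at hc))
  rw [h1, h2] at h3
  exact h3

end Pool.Agent.H654R3.RVV
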