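import Pool.Agent.H654R3.RVV.Comp3

/-!
# Completeness: the steps in which an agent enters
-/

namespace Pool.Agent.H654R3.RVV

variable {v m : ℕ} {I : Mkt (V v m)} {lit : Fin m → Fin v → Bool → Bool}

theorem unmatch_rel {g g' : V v m → Option (V v m)} {a : V v m} (h1 : g' a = none)
    (h2 : ∀ x, x ≠ a → g x ≠ some a → g' x = g x) (h3 : ∀ x, x ≠ a → g x = some a → g' x = none) :
    unmatch a (rel g) = rel g' := by
  funext x y
  apply propext
  change g x = some y ∧ x ≠ a ∧ y ≠ a ↔ g' x = some y
  by_cases hx : x = a
  · subst hx
    simp [h1]
  by_cases hg : g x = some a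
  · rw [h3 x hx hg, hg]
    simp only [Option.some.injEq, reduceCtorEq, iff_false, not_and, not_not]
    intro h _
    exact h.symm
  · rw [h2 x hx hg]
    constructor
    · intro h
      exact h.1
    · intro h
      refine ⟨h, hx, ?_⟩
      rintro rfl
      exact hg h

/-- which agents of `S` block with `C i t` -/
theorem cand_C (hI : Good I lit) {rs : Fin v → RS m} {cs : Fin m → CS v} {i : Fin v}
    {t : Bool} (hr : ∀ i', i' ≠ i → rs i' = .r0 ∨ rs i' = .r3) (hc : ∀ j, cs j = .c2 ∨ cs j = .c5)
    (hi : rs i = .r2 t none) {b : V v m} (hb : b ∈ inS rs cs)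
    (h : Blocks I (restr (inS rs cs) (rel (g rs cs))) (.C i t) b) :
    ∃ j, b = .A j ∧ cs j = .c2 ∧ lit j i t = true := by
  have hop := (hI.opp _ _).1 h.1
  cases b with
  | K i' s =>
    exfalso
    by_cases e : i' = i
    · subst e
      rw [mem_K, hi] at hb
      simp only [sK] at hb
      subst hb
      have h1 := h.le2 hI (c := .C i' (!s)) ⟨by simp [rel, g, gK, hi], by simp [hi, sK],
        by simp [hi, sC]⟩ (by simp [V.man])
      cases s <;> simp [V.key] at h1
    · rcases hr i' e with h5 | h5
      · rw [mem_K, h5] at hb
        exact hb
      · have h1 := h.le2 hI (c := .C i' (!s)) ⟨by simp [rel, g, gK, h5], by simp [h5, sK],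
          by simp [h5, sC]⟩ (by simp [V.man])
        cases s <;> simp [V.key, e] at h1
  | A j =>
    rcases hc j with h5 | h5
    · refine ⟨j, rfl, h5, ?_⟩
      by_contra h6
      have h1 := h.le2 hI (c := .Q j) ⟨by simp [rel, g, gA, h5], by simp [h5, sA],
        by simp [h5, sA]⟩ (by simp [V.man])
      simp [V.key, h6] at h1
    · exfalso
      have h1 := h.le2 hI (c := .P j) ⟨by simp [rel, g, gA, h5], by simp [h5, sA],
        by simp [h5, sP]⟩ (by simp [V.man])
      simp only [V.key] at h1
      split_ifs at h1 <;> simp at h1
  | D j =>
    exfalso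
    rcases hc j with h5 | h5
    · rw [mem_D, h5] at hb
      exact hb
    · have h1 := h.le2 hI (c := .Q j) ⟨by simp [rel, g, gD, h5], by simp [h5, sD],
        by simp [h5, sA]⟩ (by simp [V.man])
      simp [V.key] at h1
  | E j =>
    exfalso
    have h1 := h.le2 hI (c := .F j) (by
      rcases hc j with h5 | h5
      · exact ⟨by simp [rel, g, gE, h5], by simp [h5, sE], by simp [h5, sE]⟩
      · exact ⟨by simp [rel, g, gE, h5], by simp [h5, sE], by simp [h5, sE]⟩) (by simp [V.man])
    simp [V.key] at h1
  | _ => simp [V.man] at hop

/-- the inner loop started with the unmatched woman `C i t` -/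
theorem chainC (hI : Good I lit) {rs : Fin v → RS m} {cs : Fin m → CS v} {i : Fin v}
    {t : Bool} (hr : ∀ i', i' ≠ i → rs i' = .r0 ∨ rs i' = .r3) (hc : ∀ j, cs j = .c2 ∨ cs j = .c5)
    (hi : rs i = .r2 t none) :
    (∃ j, cs j = .c2 ∧ lit j i t = true ∧ Chain I (inS rs cs) (rel (g rs cs)) (.C i t)
      (rel (g (Function.update rs i (.r2 t (some j))) (Function.update cs j (.c3 i t))))) ∨
    ((∀ j, cs j = .c2 → lit j i t = false) ∧
      Chain I (inS rs cs) (rel (g rs cs)) (.C i t) (rel (g rs cs))) := by
  classical
  by_cases hex : ∃ j, cs j = .c2 ∧ lit j i t = true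
  · left
    obtain ⟨j0, hj0⟩ := hex
    obtain ⟨j, hj, hmin⟩ := Finset.exists_min_image
      (Finset.univ.filter (fun j => cs j = .c2 ∧ lit j i t = true)) (fun j => I.r (.C i t) (.A j))
      ⟨j0, by simp [hj0]⟩
    simp only [Finset.mem_filter, Finset.mem_univ, true_and] at hj hmin
    obtain ⟨hj, hl⟩ := hj
    refine ⟨j, hj, hl, ?_⟩
    have hjoin : join (.C i t) (.A j) (rel (g rs cs)) =
        rel (g (Function.update rs i (.r2 t (some j))) (Function.update cs j (.c3 i t))) := by
      refine join_rel (by simp) (by simp [g, gC]) (by simp [g, gA]) ?_ ?_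
      · intro x h1 h2 h3 h4
        cases x with
        | K i' s =>
          by_cases h : i' = i
          · subst h
            simp [g, gK, hi]
          · simp [g, Function.update_of_ne h]
        | C i' s =>
          by_cases h : i' = i
          · subst h
            simp_all [g, gC]
          · simp [g, Function.update_of_ne h]
        | _ j' =>
          by_cases h : j' = j
          · subst h
            simp_all [g, gA, gD, gE, gP, gQ, gF]
          · simp [g, Function.update_of_ne h]
      · intro x h1 h2 h3
        cases x with
        | K i' s =>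
          exfalso
          by_cases h : i' = i
          · subst h
            cases s <;> cases t <;> simp_all [g, gK]
          · rcases hr i' h with h5 | h5 <;> simp_all [g, gK]
        | C i' s =>
          exfalso
          by_cases h : i' = i
          · subst h
            cases s <;> cases t <;> simp_all [g, gC]
          · rcases hr i' h with h5 | h5 <;> simp_all [g, gC]
        | _ j' =>
          by_cases h : j' = j
          · subst h
            simp_all [g, gA, gD, gE, gP, gQ, gF]
          · exfalso
            rcases hc j' with h5 | h5 <;> simp_all [g, gA, gD, gE, gP, gQ, gF]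
    have hS : inS (Function.update rs i (.r2 t (some j))) (Function.update cs j (.c3 i t)) =
        inS rs cs := by
      ext x
      cases x with
      | K i' s =>
        by_cases h : i' = i
        · subst h; simp [hi, sK]
        · simp [Function.update_of_ne h]
      | C i' s =>
        by_cases h : i' = i
        · subst h; simp [hi, sC]
        · simp [Function.update_of_ne h]
      | _ j' =>
        by_cases h : j' = j
        · subst h
          simp [hj, sA, sE, sD, sP]
        · simp [Function.update_of_ne h]
    have hbest : Best I (inS rs cs) (rel (g rs cs)) (.C i t) (.A j) := by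
      refine ⟨by simp [hj, sA], ⟨(hI.opp _ _).2 (by simp [V.man]), ?_, ?_, ?_⟩, ?_⟩
      · intro h
        have := h.1
        simp [rel, g, gC, hi] at this
      · intro c h
        have := h.1
        simp [rel, g, gC, hi] at this
      · intro c h
        have h1 := h.1
        simp only [rel, g, gA, hj, Option.some.injEq] at h1
        subst h1
        exact hI.key _ _ _ (by simp [V.man]) (by simp [V.man]) (by simp [V.key, hl])
      · intro b' hb' hB
        obtain ⟨j', rfl, h1, h2⟩ := cand_C hI hr hc hi hb' hB
        exact hmin j' ⟨h1, h2⟩
    refine Chain.swap hbest (c := .Q j) (by simp [rel, g, gA, hj]) ?_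
    rw [hjoin]
    apply Chain.stop
    intro b hb hB
    rw [← hS] at hb hB
    set rs' := Function.update rs i (.r2 t (some j)) with hrs'
    set cs' := Function.update cs j (.c3 i t) with hcs'
    have hop := (hI.opp _ _).1 hB.1
    have ei : rs' i = .r2 t (some j) := by rw [hrs', Function.update_self]
    have ej : cs' j = .c3 i t := by rw [hcs', Function.update_self]
    have eri : ∀ i', i' ≠ i → rs' i' = .r0 ∨ rs' i' = .r3 := by
      intro i' h
      rw [hrs', Function.update_of_ne h]
      exact hr i' h
    have ecj : ∀ j', j' ≠ j → cs' j' = .c2 ∨ cs' j' = .c5 := by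
      intro j' h
      rw [hcs', Function.update_of_ne h]
      exact hc j'
    cases b with
    | K i' s =>
      by_cases e : i' = i
      · subst e
        rw [mem_K, ei] at hb
        simp only [sK] at hb
        subst hb
        have h1 := hB.le2 hI (c := .C i' (!s)) ⟨by simp [rel, g, gK, ei], by simp [ei, sK],
          by simp [ei, sC]⟩ (by simp [V.man])
        simp [V.key] at h1
      · rcases eri i' e with h5 | h5
        · rw [mem_K, h5] at hb
          exact hb
        · have h1 := hB.le2 hI (c := .C i' (!s)) ⟨by simp [rel, g, gK, h5], by simp [h5, sK],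
            by simp [h5, sC]⟩ (by simp [V.man])
          simp [V.key] at h1
    | A j' =>
      by_cases e : j' = j
      · subst e
        have h1 := hB.le2 hI (c := .C i t) ⟨by simp [rel, g, gA, ej], by simp [ej, sA],
          by simp [ei, sC]⟩ (by simp [V.man])
        simp [V.key, hl] at h1
      · rcases ecj j' e with h5 | h5
        · have h1 := hB.le2 hI (c := .Q j') ⟨by simp [rel, g, gA, h5], by simp [h5, sA],
            by simp [h5, sA]⟩ (by simp [V.man])
          simp [V.key, e] at h1
        · have h1 := hB.le2 hI (c := .P j') ⟨by simp [rel, g, gA, h5], by simp [h5, sA],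
            by simp [h5, sP]⟩ (by simp [V.man])
          simp [V.key, e] at h1
    | D j' =>
      by_cases e : j' = j
      · subst e
        rw [mem_D, ej] at hb
        exact hb
      · rcases ecj j' e with h5 | h5
        · rw [mem_D, h5] at hb
          exact hb
        · have h1 := hB.le2 hI (c := .Q j') ⟨by simp [rel, g, gD, h5], by simp [h5, sD],
            by simp [h5, sA]⟩ (by simp [V.man])
          simp [V.key, e] at h1
    | E j' =>
      have h1 := hB.le2 hI (c := .F j') (by
        by_cases e : j' = j
        · subst e
          exact ⟨by simp [rel, g, gE, ej], by simp [ej, sE], by simp [ej, sE]⟩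
        · rcases ecj j' e with h5 | h5
          · exact ⟨by simp [rel, g, gE, h5], by simp [h5, sE], by simp [h5, sE]⟩
          · exact ⟨by simp [rel, g, gE, h5], by simp [h5, sE], by simp [h5, sE]⟩)
        (by simp [V.man])
      simp only [V.key] at h1
      split_ifs at h1 <;> simp at h1
    | _ => simp [V.man] at hop
  · right
    have hex' : ∀ j, cs j = .c2 → lit j i t = false := by
      intro j h
      by_contra h1
      exact hex ⟨j, h, by simpa using h1⟩
    refine ⟨hex', Chain.stop ?_⟩
    intro b hb hB
    obtain ⟨j', rfl, h1, h2⟩ := cand_C hI hr hc hi hb hB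
    rw [hex' j' h1] at h2
    simp at h2

theorem step_C (hI : Good I lit) {rs : Fin v → RS m} {cs : Fin m → CS v} {i : Fin v}
    {t : Bool} (hr : ∀ i', i' ≠ i → rs i' = .r0 ∨ rs i' = .r3) (hc : ∀ j, cs j = .c2 ∨ cs j = .c5)
    (hi : rs i = .r1 t) (hex : ∃ j, cs j = .c2 ∧ lit j i t = true) :
    ∃ j, cs j = .c2 ∧ lit j i t = true ∧ Step I (St rs cs)
      (St (Function.update rs i (.r2 t (some j))) (Function.update cs j (.c3 i t))) := by
  set rs1 := Function.update rs i (.r2 t none) with hrs1
  have e1 : rs1 i = .r2 t none := by rw [hrs1, Function.update_self]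
  have e2 : ∀ i', i' ≠ i → rs1 i' = .r0 ∨ rs1 i' = .r3 := by
    intro i' h
    rw [hrs1, Function.update_of_ne h]
    exact hr i' h
  have hM : unmatch (.C i t) (rel (g rs cs)) = rel (g rs1 cs) := by
    refine unmatch_rel (by simp [g, gC, e1]) ?_ ?_
    · intro x h1 h2
      cases x with
      | K i' s =>
        by_cases h : i' = i
        · subst h; simp [g, gK, hi, e1]
        · simp [g, hrs1, Function.update_of_ne h]
      | C i' s =>
        by_cases h : i' = i
        · subst h; simp_all [g, gC]
        · simp [g, hrs1, Function.update_of_ne h]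
      | _ j' => rfl
    · intro x h1 h2
      exfalso
      cases x with
      | K i' s =>
        by_cases h : i' = i
        · subst h
          cases s <;> cases t <;> simp_all [g, gK]
        · rcases hr i' h with h5 | h5 <;> simp_all [g, gK]
      | C i' s =>
        by_cases h : i' = i
        · subst h
          cases s <;> cases t <;> simp_all [g, gC]
        · rcases hr i' h with h5 | h5 <;> simp_all [g, gC]
      | _ j' =>
        rcases hc j' with h5 | h5 <;> simp_all [g, gA, gD, gE, gP, gQ, gF]
  have hS : insert (V.C i t) (inS rs cs) = inS rs1 cs := by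
    ext x
    rw [Set.mem_insert_iff]
    cases x with
    | K i' s =>
      by_cases h : i' = i
      · subst h; simp [hi, e1, sK]
      · simp [hrs1, Function.update_of_ne h]
    | C i' s =>
      by_cases h : i' = i
      · subst h; cases s <;> cases t <;> simp [hi, e1, sC]
      · simp [hrs1, Function.update_of_ne h, h]
    | _ j' => simp
  rcases chainC hI e2 hc e1 with ⟨j, h1, h2, h3⟩ | ⟨h1, -⟩
  · refine ⟨j, h1, h2, ?_⟩
    rw [hrs1, Function.update_idem] at h3
    rw [← hrs1] at h3
    have h4 := Step.enter (I := I) (M := rel (g rs cs)) (S := inS rs cs) (a := .C i t) (b := .A j)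
      (by simp [hi, sC]) (by simp [h1, sA])
      (blocks_of hI (by simp [V.man]) (by simp [g, gC, hi])
        (by intro c hc; simp [g, gC, hi] at hc)
        (by
          intro c hc
          simp only [g, gA, h1, Option.some.injEq] at hc
          subst hc
          simp [V.man, V.key, h2]))
      (M' := rel (g (Function.update rs i (.r2 t (some j))) (Function.update cs j (.c3 i t))))
      (by rw [hM, hS]; exact h3)
    rw [hS] at h4
    have hS' : inS rs1 cs =
        inS (Function.update rs i (.r2 t (some j))) (Function.update cs j (.c3 i t)) := by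
      ext x
      cases x with
      | K i' s =>
        by_cases h : i' = i
        · subst h; simp [e1, sK]
        · simp [hrs1, Function.update_of_ne h]
      | C i' s =>
        by_cases h : i' = i
        · subst h; simp [e1, sC]
        · simp [hrs1, Function.update_of_ne h]
      | _ j' =>
        by_cases h : j' = j
        · subst h
          simp [h1, sA, sE, sD, sP]
        · simp [Function.update_of_ne h]
    rw [hS'] at h4
    exact h4
  · obtain ⟨j, h2, h3⟩ := hex
    rw [h1 j h2] at h3
    simp at h3

end Pool.Agent.H654R3.RVV
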