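import Pool.Agent.H654R3.RVV.Comp4

/-!
# Completeness: the remaining steps and the whole execution
-/

namespace Pool.Agent.H654R3.RVV

variable {v m : ℕ} {I : Mkt (V v m)} {lit : Fin m → Fin v → Bool → Bool}

theorem step_D (hI : Good I lit) {rs : Fin v → RS m} {cs : Fin m → CS v} {i : Fin v}
    {t : Bool} {j : Fin m} (hr : ∀ i', i' ≠ i → rs i' = .r0 ∨ rs i' = .r3)
    (hc : ∀ j', j' ≠ j → cs j' = .c2 ∨ cs j' = .c5)
    (hi : rs i = .r2 t (some j)) (hj : cs j = .c3 i t) :
    Step I (St rs cs) (St rs (Function.update cs j (.c4 i t))) := by
  have hjoin : join (.D j) (.Q j) (rel (g rs cs)) =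
      rel (g rs (Function.update cs j (.c4 i t))) := by
    refine join_rel (by simp) (by simp [g, gD]) (by simp [g, gQ]) ?_ ?_
    · intro x h1 h2 h3 h4
      cases x with
      | K i' s => rfl
      | C i' s => rfl
      | _ j' =>
        by_cases h : j' = j
        · subst h
          simp_all [g, gA, gD, gE, gP, gQ, gF]
        · simp [g, Function.update_of_ne h]
    · intro x h1 h2 h3
      cases x with
      | K i' s =>
        exfalso
        by_cases h : i' = i
        · subst h
          cases s <;> cases t <;> simp_all [g, gK]
        · rcases hr i' h with h5 | h5 <;> simp_all [g, gK]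
      | C i' s =>
        exfalso
        by_cases h : i' = i
        · subst h
          cases s <;> cases t <;> simp_all [g, gC]
        · rcases hr i' h with h5 | h5 <;> simp_all [g, gC]
      | _ j' =>
        by_cases h : j' = j
        · subst h
          simp_all [g, gA, gD, gE, gP, gQ, gF]
        · exfalso
          rcases hc j' h with h5 | h5 <;> simp_all [g, gA, gD, gE, gP, gQ, gF]
  have hS : insert (V.D j) (inS rs cs) = inS rs (Function.update cs j (.c4 i t)) := by
    ext x
    rw [Set.mem_insert_iff]
    cases x with
    | K i' s => simp
    | C i' s => simp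
    | _ j' =>
      by_cases h : j' = j
      · subst h
        simp [hj, sA, sE, sD, sP]
      · simp [Function.update_of_ne h, h]
  set S := insert (V.D j) (inS rs cs) with hSd
  have hQS : V.Q j ∈ S := by simp [hSd, hj, sA]
  have hDS : V.D j ∈ S := by simp [hSd]
  have hbest : Best I S (unmatch (.D j) (rel (g rs cs))) (.D j) (.Q j) := by
    refine ⟨hQS, ⟨(hI.opp _ _).2 (by simp [V.man]), ?_, ?_, ?_⟩, ?_⟩
    · intro h
      exact h.1.2.1 rfl
    · intro c h
      exact absurd rfl h.1.2.1
    · intro c h
      have := h.1.1
      simp [rel, g, gQ, hj] at this
    · intro b' hb' hB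
      have hop := (hI.opp _ _).1 hB.1
      by_cases e : b' = .Q j
      · rw [e]
      · apply le_of_lt
        apply hI.key _ _ _ (by simp [V.man]) hop
        cases b' with
        | Q j' =>
          have : j ≠ j' := by
            rintro rfl
            exact e rfl
          simp [V.key, this]
        | P j' => simp only [V.key]; split_ifs <;> simp
        | C i' s => simp [V.key]
        | F j' => simp [V.key]
        | _ => simp [V.man] at hop
  have h3 : Chain I S (unmatch (.D j) (rel (g rs cs))) (.D j)
      (rel (g rs (Function.update cs j (.c4 i t)))) := by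
    refine Chain.free hbest ?_ ?_
    · intro c h
      have := h.1
      simp [rel, g, gQ, hj] at this
    · rw [join_unmatch, hjoin]
      apply Chain.stop
      intro b hb hB
      have h1 := hB.le1 hI (c := .Q j) ⟨by simp [rel, g, gD], hDS, hQS⟩ (by simp [V.man])
      have hop := (hI.opp _ _).1 hB.1
      cases b with
      | Q j' =>
        simp only [V.key] at h1
        split_ifs at h1 with h4
        · subst h4; simp at h1
        all_goals simp at h1
      | P j' => simp only [V.key] at h1; split_ifs at h1 <;> simp at h1
      | C i' s => simp [V.key] at h1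
      | F j' => simp [V.key] at h1
      | _ => simp [V.man] at hop
  have h4 := Step.enter (I := I) (M := rel (g rs cs)) (S := inS rs cs) (a := .D j) (b := .Q j)
    (by simp [hj, sD]) (by simp [hj, sA])
    (blocks_of hI (by simp [V.man]) (by simp [g, gD, hj])
      (by
        intro c hc
        simp only [g, gD, hj, Option.some.injEq] at hc
        subst hc
        simp [V.man, V.key])
      (by intro c hc; simp [g, gQ, hj] at hc)) h3
  rw [← hSd, hS] at h4
  exact h4

theorem step_K (hI : Good I lit) {rs : Fin v → RS m} {cs : Fin m → CS v} {i : Fin v}
    {t : Bool} (hr : ∀ i', i' ≠ i → rs i' = .r0 ∨ rs i' = .r3) (hc : ∀ j, cs j = .c2 ∨ cs j = .c5)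
    (hi : rs i = .r2 t none) :
    Step I (St rs cs) (St (Function.update rs i .r3) cs) := by
  have hjoin : join (.K i (!t)) (.C i t) (rel (g rs cs)) =
      rel (g (Function.update rs i .r3) cs) := by
    refine join_rel (by simp) (by simp [g, gK]) (by simp [g, gC]) ?_ ?_
    · intro x h1 h2 h3 h4
      cases x with
      | K i' s =>
        by_cases h : i' = i
        · subst h
          cases s <;> cases t <;> simp_all [g, gK]
        · simp [g, Function.update_of_ne h]
      | C i' s =>
        by_cases h : i' = i
        · subst h
          cases s <;> cases t <;> simp_all [g, gC]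
        · simp [g, Function.update_of_ne h]
      | _ j' => rfl
    · intro x h1 h2 h3
      exfalso
      cases x with
      | K i' s =>
        by_cases h : i' = i
        · subst h
          cases s <;> cases t <;> simp_all [g, gK]
        · rcases hr i' h with h5 | h5 <;> simp_all [g, gK]
      | C i' s =>
        by_cases h : i' = i
        · subst h
          cases s <;> cases t <;> simp_all [g, gC]
        · rcases hr i' h with h5 | h5 <;> simp_all [g, gC]
      | _ j' =>
        rcases hc j' with h5 | h5 <;> simp_all [g, gA, gD, gE, gP, gQ, gF]
  have hS : insert (V.K i (!t)) (inS rs cs) = inS (Function.update rs i .r3) cs := by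
    ext x
    rw [Set.mem_insert_iff]
    cases x with
    | K i' s =>
      by_cases h : i' = i
      · subst h
        cases s <;> cases t <;> simp [hi, sK]
      · simp [Function.update_of_ne h, h]
    | C i' s =>
      by_cases h : i' = i
      · subst h
        cases s <;> cases t <;> simp [hi, sC]
      · simp [Function.update_of_ne h]
    | _ j' => simp
  set S := insert (V.K i (!t)) (inS rs cs) with hSd
  have hQS : V.C i t ∈ S := by simp [hSd, hi, sC]
  have hDS : V.K i (!t) ∈ S := by simp [hSd]
  have hbest : Best I S (unmatch (.K i (!t)) (rel (g rs cs))) (.K i (!t)) (.C i t) := by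
    refine ⟨hQS, ⟨(hI.opp _ _).2 (by simp [V.man]), ?_, ?_, ?_⟩, ?_⟩
    · intro h
      exact h.1.2.1 rfl
    · intro c h
      exact absurd rfl h.1.2.1
    · intro c h
      have := h.1.1
      simp [rel, g, gC, hi] at this
    · intro b' hb' hB
      have hop := (hI.opp _ _).1 hB.1
      by_cases e : b' = .C i t
      · rw [e]
      · apply le_of_lt
        apply hI.key _ _ _ (by simp [V.man]) hop
        cases b' with
        | C i' s =>
          by_cases e2 : i = i'
          · subst e2
            have e3 : s = !t := by
              cases s <;> cases t <;> simp_all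
            subst e3
            simp [V.key]
          · simp [V.key, e2]
        | P j' => simp [V.key]
        | Q j' => simp [V.key]
        | F j' => simp [V.key]
        | _ => simp [V.man] at hop
  have h3 : Chain I S (unmatch (.K i (!t)) (rel (g rs cs))) (.K i (!t))
      (rel (g (Function.update rs i .r3) cs)) := by
    refine Chain.free hbest ?_ ?_
    · intro c h
      have := h.1
      simp [rel, g, gC, hi] at this
    · rw [join_unmatch, hjoin]
      apply Chain.stop
      intro b hb hB
      have h1 := hB.le1 hI (c := .C i t) ⟨by simp [rel, g, gK], hDS, hQS⟩ (by simp [V.man])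
      have hop := (hI.opp _ _).1 hB.1
      cases b with
      | C i' s =>
        simp only [V.key] at h1
        by_cases e2 : i = i'
        · subst e2
          cases s <;> cases t <;> simp_all
        · simp [e2] at h1
      | P j' => simp [V.key] at h1
      | Q j' => simp [V.key] at h1
      | F j' => simp [V.key] at h1
      | _ => simp [V.man] at hop
  have h4 := Step.enter (I := I) (M := rel (g rs cs)) (S := inS rs cs) (a := .K i (!t)) (b := .C i t)
    (by simp [hi, sK]) (by simp [hi, sC])
    (blocks_of hI (by simp [V.man]) (by simp [g, gK, hi])
      (by intro c hc; simp [g, gK, hi] at hc)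
      (by intro c hc; simp [g, gC, hi] at hc)) h3
  rw [← hSd, hS] at h4
  exact h4

theorem step_P (hI : Good I lit) {rs : Fin v → RS m} {cs : Fin m → CS v} {i : Fin v}
    {t : Bool} {j : Fin m} (hr : ∀ i', i' ≠ i → rs i' = .r0 ∨ rs i' = .r3)
    (hc : ∀ j', j' ≠ j → cs j' = .c2 ∨ cs j' = .c5)
    (hi : rs i = .r2 t (some j)) (hj : cs j = .c4 i t) (hl : lit j i t = true) :
    (∃ j', Function.update cs j .c5 j' = .c2 ∧ lit j' i t = true ∧ Step I (St rs cs)
      (St (Function.update rs i (.r2 t (some j')))
        (Function.update (Function.update cs j .c5) j' (.c3 i t)))) ∨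
    ((∀ j', Function.update cs j .c5 j' = .c2 → lit j' i t = false) ∧
      Step I (St rs cs) (St (Function.update rs i (.r2 t none)) (Function.update cs j .c5))) := by
  set rs1 := Function.update rs i (.r2 t none) with hrs1
  set cs1 := Function.update cs j .c5 with hcs1
  have ei : rs1 i = .r2 t none := by rw [hrs1, Function.update_self]
  have ej : cs1 j = .c5 := by rw [hcs1, Function.update_self]
  have eri : ∀ i', i' ≠ i → rs1 i' = .r0 ∨ rs1 i' = .r3 := by
    intro i' h
    rw [hrs1, Function.update_of_ne h]
    exact hr i' h
  have ecj : ∀ j', cs1 j' = .c2 ∨ cs1 j' = .c5 := by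
    intro j'
    by_cases h : j' = j
    · subst h; exact Or.inr ej
    · rw [hcs1, Function.update_of_ne h]
      exact hc j' h
  have hjoin : join (.P j) (.A j) (rel (g rs cs)) = rel (g rs1 cs1) := by
    refine join_rel (by simp) (by simp [g, gP, ej]) (by simp [g, gA, ej]) ?_ ?_
    · intro x h1 h2 h3 h4
      cases x with
      | K i' s =>
        by_cases h : i' = i
        · subst h
          simp [g, gK, hi, ei]
        · simp [g, hrs1, Function.update_of_ne h]
      | C i' s =>
        by_cases h : i' = i
        · subst h
          simp only [g, gC, hi] at h4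
          by_cases e : s = t
          · subst e; simp at h4
          · simp [g, gC, hi, ei, e]
        · simp [g, hrs1, Function.update_of_ne h]
      | _ j' =>
        by_cases h : j' = j
        · subst h
          simp_all [g, gA, gD, gE, gP, gQ, gF]
        · simp [g, hcs1, Function.update_of_ne h]
    · intro x h1 h2 h3
      cases x with
      | K i' s =>
        exfalso
        by_cases h : i' = i
        · subst h
          cases s <;> cases t <;> simp_all [g, gK]
        · rcases hr i' h with h5 | h5 <;> simp_all [g, gK]
      | C i' s =>
        by_cases h : i' = i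
        · subst h
          cases s <;> cases t <;> simp_all [g, gC]
        · exfalso
          rcases hr i' h with h5 | h5 <;> simp_all [g, gC]
      | _ j' =>
        exfalso
        by_cases h : j' = j
        · subst h
          simp_all [g, gA, gD, gE, gP, gQ, gF]
        · rcases hc j' h with h5 | h5 <;> simp_all [g, gA, gD, gE, gP, gQ, gF]
  have hun : unmatch (.P j) (rel (g rs cs)) = rel (g rs cs) := by
    refine unmatch_rel (by simp [g, gP, hj]) ?_ ?_
    · intro x _ _; rfl
    · intro x h1 h2
      exfalso
      cases x with
      | K i' s =>
        by_cases h : i' = i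
        · subst h
          cases s <;> cases t <;> simp_all [g, gK]
        · rcases hr i' h with h5 | h5 <;> simp_all [g, gK]
      | C i' s =>
        by_cases h : i' = i
        · subst h
          cases s <;> cases t <;> simp_all [g, gC]
        · rcases hr i' h with h5 | h5 <;> simp_all [g, gC]
      | _ j' =>
        by_cases h : j' = j
        · subst h
          simp_all [g, gA, gD, gE, gP, gQ, gF]
        · rcases hc j' h with h5 | h5 <;> simp_all [g, gA, gD, gE, gP, gQ, gF]
  have hS : insert (V.P j) (inS rs cs) = inS rs1 cs1 := by
    ext x
    rw [Set.mem_insert_iff]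
    cases x with
    | K i' s =>
      by_cases h : i' = i
      · subst h; simp [hi, ei, sK]
      · simp [hrs1, Function.update_of_ne h]
    | C i' s =>
      by_cases h : i' = i
      · subst h; simp [hi, ei, sC]
      · simp [hrs1, Function.update_of_ne h]
    | _ j' =>
      by_cases h : j' = j
      · subst h
        simp [hj, ej, sA, sE, sD, sP]
      · simp [hcs1, Function.update_of_ne h, h]
  have hbest : Best I (inS rs1 cs1) (rel (g rs cs)) (.P j) (.A j) := by
    refine ⟨by simp [ej, sA], ⟨(hI.opp _ _).2 (by simp [V.man]), ?_, ?_, ?_⟩, ?_⟩
    · intro h
      have := h.1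
      simp [rel, g, gP, hj] at this
    · intro c h
      have := h.1
      simp [rel, g, gP, hj] at this
    · intro c h
      have h1 := h.1
      simp only [rel, g, gA, hj, Option.some.injEq] at h1
      subst h1
      exact hI.key _ _ _ (by simp [V.man]) (by simp [V.man]) (by simp [V.key, hl])
    · intro b' hb' hB
      have hop := (hI.opp _ _).1 hB.1
      by_cases e : b' = .A j
      · rw [e]
      · apply le_of_lt
        apply hI.key _ _ _ (by simp [V.man]) hop
        cases b' with
        | A j' =>
          have : j ≠ j' := by
            rintro rfl
            exact e rfl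
          simp [V.key, this]
        | D j' =>
          by_cases e2 : j = j'
          · subst e2
            exfalso
            have h1 := hB.le2 hI (c := .Q j) ⟨by simp [rel, g, gD, hj], by simp [ej, sD],
              by simp [ej, sA]⟩ (by simp [V.man])
            simp [V.key] at h1
          · simp [V.key, e2]
        | K i' s => simp [V.key]
        | E j' => simp [V.key]
        | _ => simp [V.man] at hop
  have hmain : ∀ M', Chain I (inS rs1 cs1) (rel (g rs1 cs1)) (.C i t) M' →
      Step I (St rs cs) (M', inS rs1 cs1) := by
    intro M' h
    have h3 : Chain I (insert (V.P j) (inS rs cs)) (unmatch (.P j) (rel (g rs cs))) (.P j) M' := by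
      rw [hun, hS]
      refine Chain.swap hbest (c := .C i t) (by simp [rel, g, gA, hj]) ?_
      rw [hjoin]
      exact h
    have h4 := Step.enter (I := I) (M := rel (g rs cs)) (S := inS rs cs) (a := .P j) (b := .A j)
      (by simp [hj, sP]) (by simp [hj, sA])
      (blocks_of hI (by simp [V.man]) (by simp [g, gP, hj])
        (by intro c hc; simp [g, gP, hj] at hc)
        (by
          intro c hc
          simp only [g, gA, hj, Option.some.injEq] at hc
          subst hc
          simp [V.man, V.key, hl])) h3
    rw [hS] at h4
    exact h4
  rcases chainC hI eri ecj ei with ⟨j', h1, h2, h3⟩ | ⟨h1, h3⟩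
  · left
    refine ⟨j', h1, h2, ?_⟩
    have h4 := hmain _ h3
    have e5 : Function.update rs1 i (.r2 t (some j')) = Function.update rs i (.r2 t (some j')) := by
      rw [hrs1, Function.update_idem]
    rw [e5] at h4
    have hS' : inS rs1 cs1 =
        inS (Function.update rs i (.r2 t (some j'))) (Function.update cs1 j' (.c3 i t)) := by
      ext x
      cases x with
      | K i' s =>
        by_cases h : i' = i
        · subst h; simp [ei, sK]
        · simp [hrs1, Function.update_of_ne h]
      | C i' s =>
        by_cases h : i' = i
        · subst h; simp [ei, sC]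
        · simp [hrs1, Function.update_of_ne h]
      | _ j'' =>
        by_cases h : j'' = j'
        · subst h
          simp [h1, sA, sE, sD, sP]
        · simp [Function.update_of_ne h]
    rw [hS'] at h4
    exact h4
  · right
    exact ⟨h1, hmain _ h3⟩

end Pool.Agent.H654R3.RVV
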