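import Pool.Agent.H654R3.RVV.Comp5

/-!
# Completeness: the whole execution
-/

namespace Pool.Agent.H654R3.RVV

variable {v m : ℕ} {I : Mkt (V v m)} {lit : Fin m → Fin v → Bool → Bool}

/-- is the status `c2`? -/
def isC2 : CS v → Bool
  | .c2 => true
  | _ => false

theorem loop (hI : Good I lit) {i : Fin v} {t : Bool} {rs : Fin v → RS m}
    (hr : ∀ i', i' ≠ i → rs i' = .r0 ∨ rs i' = .r3) (n : ℕ) :
    ∀ cs : Fin m → CS v, (∀ j, cs j = .c2 ∨ cs j = .c5) →
      ((Finset.univ.filter (fun j => isC2 (cs j) = true)).card ≤ n) →
      ∀ j, cs j = .c2 → lit j i t = true →
      Relation.ReflTransGen (Step I)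
        (St (Function.update rs i (.r2 t (some j))) (Function.update cs j (.c3 i t)))
        (St (Function.update rs i .r3) (fun j => if lit j i t = true then .c5 else cs j)) := by
  classical
  induction n with
  | zero =>
    intro cs hc hn j hj hl
    exfalso
    rw [Nat.le_zero, Finset.card_eq_zero] at hn
    have : j ∈ (Finset.univ.filter (fun j => isC2 (cs j) = true)) := by simp [hj, isC2]
    rw [hn] at this
    simp at this
  | succ n ih =>
    intro cs hc hn j hj hl
    have eri : ∀ w, ∀ i', i' ≠ i → Function.update rs i (.r2 t w) i' = .r0 ∨
        Function.update rs i (.r2 t w) i' = .r3 := by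
      intro w i' h
      rw [Function.update_of_ne h]
      exact hr i' h
    have s1 := step_D hI (rs := Function.update rs i (.r2 t (some j)))
      (cs := Function.update cs j (.c3 i t)) (i := i) (t := t) (j := j) (eri _)
      (by
        intro j' h
        rw [Function.update_of_ne h]
        exact hc j') (by rw [Function.update_self]) (by rw [Function.update_self])
    rw [Function.update_idem] at s1
    have hc1 : ∀ j', Function.update cs j .c5 j' = .c2 ∨ Function.update cs j .c5 j' = .c5 := by
      intro j'
      by_cases h : j' = j
      · subst h; right; rw [Function.update_self]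
      · rw [Function.update_of_ne h]; exact hc j'
    have s2 := step_P hI (rs := Function.update rs i (.r2 t (some j)))
      (cs := Function.update cs j (.c4 i t)) (i := i) (t := t) (j := j) (eri _)
      (by
        intro j' h
        rw [Function.update_of_ne h]
        exact hc j') (by rw [Function.update_self]) (by rw [Function.update_self]) hl
    simp only [Function.update_idem] at s2
    have hfin : ∀ j', (if lit j' i t = true then (.c5 : CS v) else cs j') =
        (if lit j' i t = true then .c5 else Function.update cs j .c5 j') := by
      intro j'
      by_cases h : j' = j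
      · subst h; simp [hl]
      · rw [Function.update_of_ne h]
    rcases s2 with ⟨j', h1, h2, h3⟩ | ⟨h1, h3⟩
    · refine Relation.ReflTransGen.head s1 (Relation.ReflTransGen.head h3 ?_)
      have := ih (Function.update cs j .c5) hc1 ?_ j' h1 h2
      · rw [funext hfin]
        exact this
      · have hlt : (Finset.univ.filter (fun j' => isC2 (Function.update cs j .c5 j') = true)).card <
            (Finset.univ.filter (fun j => isC2 (cs j) = true)).card := by
          apply Finset.card_lt_card
          rw [Finset.ssubset_iff_of_subset]
          · refine ⟨j, by simp [hj, isC2], by simp [isC2]⟩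
          · intro j' h
            simp only [Finset.mem_filter, Finset.mem_univ, true_and] at h ⊢
            by_cases e : j' = j
            · subst e
              rw [hj]
              rfl
            · rw [Function.update_of_ne e] at h
              exact h
        omega
    · refine Relation.ReflTransGen.head s1 (Relation.ReflTransGen.head h3 ?_)
      have s3 := step_K hI (rs := Function.update rs i (.r2 t none))
        (cs := Function.update cs j .c5) (i := i) (t := t) (eri _) hc1
        (by rw [Function.update_self])
      rw [Function.update_idem] at s3
      have e : (fun j' => if lit j' i t = true then (.c5 : CS v) else cs j') =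
          Function.update cs j .c5 := by
        funext j'
        rw [hfin j']
        split_ifs with h
        · rcases hc1 j' with h4 | h4
          · rw [h1 j' h4] at h
            simp at h
          · exact h4.symm
        · rfl
      rw [e]
      exact Relation.ReflTransGen.single s3

theorem reach_root (hI : Good I lit) {rs : Fin v → RS m} {cs : Fin m → CS v}
    (hr : ∀ i, rs i = .r0 ∨ rs i = .r3) (hc : ∀ j, cs j = .c2 ∨ cs j = .c5) {i : Fin v}
    (hi : rs i = .r0) (t : Bool) :
    Relation.ReflTransGen (Step I) (St rs cs)
      (St (Function.update rs i .r3) (fun j => if lit j i t = true then .c5 else cs j)) := by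
  classical
  refine Relation.ReflTransGen.head (step_root hI hr hc hi t) ?_
  have hr' : ∀ i', i' ≠ i → Function.update rs i (.r1 t) i' = .r0 ∨
      Function.update rs i (.r1 t) i' = .r3 := by
    intro i' h
    rw [Function.update_of_ne h]
    exact hr i'
  by_cases hex : ∃ j, cs j = .c2 ∧ lit j i t = true
  · obtain ⟨j, h1, h2, h3⟩ := step_C hI hr' hc (by rw [Function.update_self]) hex
    rw [Function.update_idem] at h3
    refine Relation.ReflTransGen.head h3 ?_
    exact loop hI (fun i' _ => hr i') _ cs hc le_rfl j h1 h2
  · have hl : ∀ j, cs j = .c2 → lit j i t = false := by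
      intro j h
      by_contra h1
      exact hex ⟨j, h, by simpa using h1⟩
    have s := step_root2 hI (rs := Function.update rs i (.r1 t)) (cs := cs) (i := i) (t := t) hr' hc
      (by rw [Function.update_self]) hl
    rw [Function.update_idem] at s
    have e : (fun j' => if lit j' i t = true then (.c5 : CS v) else cs j') = cs := by
      funext j'
      split_ifs with h
      · rcases hc j' with h4 | h4
        · rw [hl j' h4] at h
          simp at h
        · exact h4.symm
      · rfl
    rw [e]
    exact Relation.ReflTransGen.single s

theorem phase2 (hI : Good I lit) (α : Fin v → Bool) (T : Finset (Fin v)) :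
    Relation.ReflTransGen (Step I) (St (fun _ => .r0) (fun _ => .c2))
      (St (fun i => if i ∈ T then .r3 else .r0)
        (fun j => if ∃ i ∈ T, lit j i (α i) = true then .c5 else .c2)) := by
  classical
  induction T using Finset.induction_on with
  | empty =>
    simp only [Finset.notMem_empty, if_false, false_and, exists_false]
    exact Relation.ReflTransGen.refl
  | insert i T hi ih =>
    refine ih.trans ?_
    have h := reach_root hI (rs := fun i => if i ∈ T then .r3 else .r0)
      (cs := fun j => if ∃ i ∈ T, lit j i (α i) = true then .c5 else .c2)
      (fun i' => by split_ifs <;> simp) (fun j => by split_ifs <;> simp)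
      (i := i) (by simp [hi]) (α i)
    have e1 : Function.update (fun i => if i ∈ T then (.r3 : RS m) else .r0) i .r3 =
        (fun i' => if i' ∈ insert i T then (.r3 : RS m) else .r0) := by
      funext i'
      by_cases h : i' = i
      · subst h; simp
      · simp [Function.update_of_ne h, h]
    have e2 : (fun j => if lit j i (α i) = true then (.c5 : CS v) else
          if ∃ i ∈ T, lit j i (α i) = true then .c5 else .c2) =
        (fun j => if ∃ i' ∈ insert i T, lit j i' (α i') = true then (.c5 : CS v) else .c2) := by
      funext j
      by_cases h1 : lit j i (α i) = true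
      · simp [h1]
      · simp [h1]
    rw [e1, e2] at h
    exact h

theorem complete (hI : Good I lit) (h : Sat lit) : Reaches I (rel init) (rel goal) := by
  classical
  obtain ⟨α, hα⟩ := h
  have p1 := phase1 (v := v) hI (Finset.univ : Finset (Fin m))
  have p2 := phase2 hI α (Finset.univ : Finset (Fin v))
  simp only [Finset.mem_univ, if_true, true_and, hα] at p1 p2
  have h0 : (rel init, (∅ : Set (V v m))) = St (fun _ => .r0) (fun _ => .c0) := by
    refine Prod.ext ?_ ?_
    · change rel init = rel (g _ _)
      congr 1
      funext x
      cases x <;> rfl
    · change ∅ = inS _ _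
      ext x
      cases x <;> simp [sK, sC, sA, sD, sE, sP]
  have h1 : St (fun _ => .r3) (fun _ => .c5) = (rel (goal (v := v) (m := m)),
      inS (fun _ => .r3) (fun _ => .c5)) := by
    refine Prod.ext ?_ rfl
    change rel (g _ _) = rel goal
    congr 1
    funext x
    cases x <;> rfl
  refine ⟨inS (fun _ => .r3) (fun _ => .c5), ?_⟩
  rw [h0, ← h1]
  exact p1.trans p2

end Pool.Agent.H654R3.RVV
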