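import Pool.Agent.NPC.Sat
import Pool.Agent.H671R2.PolyAuto

/-!
# The Roth-Vande Vate mechanism: definitions

A market is given by the relation of being of opposite sexes and by ranks (small ranks are good).
A matching is a symmetric relation between agents.
-/

namespace Pool.Agent.H654R3.RVV

/-- A market with agents of type `A`: `opp a b` says that `a` and `b` are agents of opposite sexes,
`r a b` is the rank of `b` in the list of `a` (rank `0` is the best). -/
structure Mkt (A : Type) where
  /-- agents of opposite sexes -/
  opp : A → A → Prop
  /-- the rank of the second agent in the list of the first -/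
  r : A → A → ℕ

variable {A : Type}

/-- `a` and `b` block the matching `M`: they are of opposite sexes, not matched to each other, and
each is unmatched or prefers the other to its partner. -/
def Blocks (I : Mkt A) (M : A → A → Prop) (a b : A) : Prop :=
  I.opp a b ∧ ¬ M a b ∧ (∀ c, M a c → I.r a b < I.r a c) ∧ (∀ c, M b c → I.r b a < I.r b c)

/-- No pair blocks `M`. -/
def Stable (I : Mkt A) (M : A → A → Prop) : Prop := ∀ a b, ¬ Blocks I M a b

/-- `M` is a matching: a set of disjoint pairs of agents of opposite sexes. -/
def IsMatching (I : Mkt A) (M : A → A → Prop) : Prop :=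
  (∀ a b, M a b → M b a) ∧ (∀ a b, M a b → I.opp a b) ∧ ∀ a b c, M a b → M a c → b = c

/-- `M|_S`: the pairs of `M` inside `S`. -/
def restr (S : Set A) (M : A → A → Prop) (a b : A) : Prop := M a b ∧ a ∈ S ∧ b ∈ S

/-- Remove the pair of `a`. -/
def unmatch (a : A) (M : A → A → Prop) (x y : A) : Prop := M x y ∧ x ≠ a ∧ y ≠ a

/-- Remove the pairs of `a` and of `b` and add the pair `(a, b)`. -/
def join (a b : A) (M : A → A → Prop) (x y : A) : Prop :=
  (x = a ∧ y = b) ∨ (x = b ∧ y = a) ∨ unmatch a (unmatch b M) x y

/-- `b` is the agent whom `p` ranks highest among those which together with `p` block `M|_S` in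
`I|_S`. -/
def Best (I : Mkt A) (S : Set A) (M : A → A → Prop) (p b : A) : Prop :=
  b ∈ S ∧ Blocks I (restr S M) p b ∧ ∀ b' ∈ S, Blocks I (restr S M) p b' → I.r p b ≤ I.r p b'

/-- The inner loop of the mechanism: `Chain I S M p M'` says that the loop started with the matching
`M` and the agent `p` ends with the matching `M'`. -/
inductive Chain (I : Mkt A) (S : Set A) : (A → A → Prop) → A → (A → A → Prop) → Prop
  | stop {M : A → A → Prop} {p : A} (h : ∀ b ∈ S, ¬ Blocks I (restr S M) p b) : Chain I S M p M
  | free {M M' : A → A → Prop} {p b : A} (h : Best I S M p b) (hb : ∀ c, ¬ M b c)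
      (ht : Chain I S (join p b M) p M') : Chain I S M p M'
  | swap {M M' : A → A → Prop} {p b c : A} (h : Best I S M p b) (hb : M b c)
      (ht : Chain I S (join p b M) c M') : Chain I S M p M'

/-- One round of the mechanism.  The state is the pair of the matching and the set `S`.
`enter`: some agent `a` outside `S` and some agent of `S` block; `a` loses its partner, enters `S`,
and the inner loop is started with `a`.
`pair`: otherwise, some blocking pair is matched and enters `S`. -/
inductive Step (I : Mkt A) : (A → A → Prop) × Set A → (A → A → Prop) × Set A → Prop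
  | enter {M M' : A → A → Prop} {S : Set A} {a b : A} (ha : a ∉ S) (hb : b ∈ S)
      (h : Blocks I M a b) (ht : Chain I (insert a S) (unmatch a M) a M') :
      Step I (M, S) (M', insert a S)
  | pair {M : A → A → Prop} {S : Set A} {a b : A}
      (hn : ∀ x y, x ∉ S → y ∈ S → ¬ Blocks I M x y) (h : Blocks I M a b) :
      Step I (M, S) (join a b M, insert a (insert b S))

/-- Some execution of the mechanism started at `M₀` arrives at `M` (and stops there, if `M` is
stable). -/
def Reaches (I : Mkt A) (M₀ M : A → A → Prop) : Prop :=
  ∃ S : Set A, Relation.ReflTransGen (Step I) (M₀, ∅) (M, S)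

/-! ### Instances as data -/

/-- The preference lists of the men and of the women: the entries are the indices of the agents of
the opposite sex, the best first. -/
abbrev Prefs : Type := List (List ℕ) × List (List ℕ)

/-- `I` is an instance of size `n`: there are `n` men and `n` women, and each list is a permutation
of `0, …, n - 1`. -/
def IsInst (I : Prefs) : Prop :=
  I.2.length = I.1.length ∧ (∀ l ∈ I.1, l.Perm (List.range I.1.length)) ∧
    ∀ l ∈ I.2, l.Perm (List.range I.1.length)

/-- The market of an instance: `(true, i)` is the man with index `i`, `(false, i)` the woman with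
index `i`; the rank is the position in the list. -/
def market (I : Prefs) : Mkt (Bool × ℕ) where
  opp a b := a.1 ≠ b.1 ∧ a.2 < I.1.length ∧ b.2 < I.1.length
  r a b := ((if a.1 then I.1 else I.2).getD a.2 []).idxOf b.2

/-- The matching given by a list of pairs (man, woman). -/
def ofList (l : List (ℕ × ℕ)) (a b : Bool × ℕ) : Prop :=
  (a.1 = true ∧ b.1 = false ∧ (a.2, b.2) ∈ l) ∨ (a.1 = false ∧ b.1 = true ∧ (b.2, a.2) ∈ l)

/-- The inputs of `REACH`: the preference lists, the matching `M₀` and the matching `M`. -/
abbrev Inp : Type := Prefs × List (ℕ × ℕ) × List (ℕ × ℕ)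

/-- The input is as required: an instance, two matchings `M₀` and `M`, and `M` is stable. -/
def Legal (x : Inp) : Prop :=
  IsInst x.1 ∧ IsMatching (market x.1) (ofList x.2.1) ∧ IsMatching (market x.1) (ofList x.2.2) ∧
    Stable (market x.1) (ofList x.2.2)

/-- The decision problem `REACH`: does some execution started at `M₀` stop at `M`? -/
def REACH (x : Inp) : Prop :=
  Legal x ∧ Reaches (market x.1) (ofList x.2.1) (ofList x.2.2)

end Pool.Agent.H654R3.RVV
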