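import Pool.Agent.H654R3.RVV.Gad

/-!
# The instance made from a formula
-/

namespace Pool.Agent.H654R3.RVV

open Pool.Agent.NPC

/-- formulas in conjunctive normal form -/
abbrev CNF : Type := List (List (Bool × ℕ))

/-- the occurrences of variables -/
def vars (φ : CNF) : List ℕ := φ.flatMap (fun c => c.map (fun l => l.2))

/-- the number of variable gadgets -/
def nv (φ : CNF) : ℕ := (vars φ).length

/-- the number of clauses -/
def nc (φ : CNF) : ℕ := φ.length

/-- the number of men -/
def nn (φ : CNF) : ℕ := 2 * nv φ + 3 * nc φ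

/-- does the literal `(i, s)` occur in clause `j`? -/
noncomputable def litN (φ : CNF) (j i : ℕ) (s : Bool) : Bool :=
  (φ.getD j []).any (fun l => decide (l.1 = s) && decide (NPC.index (vars φ) l.2 = i))

/-- does the literal `(i, s)` occur in clause `j`? -/
noncomputable def litF (φ : CNF) (j : Fin (nc φ)) (i : Fin (nv φ)) (s : Bool) : Bool :=
  litN φ j i s

/-- Labels of agents: the kind, the index and the sign. Kind `0` is `K` or `C`, kind `1` is `A` or
`P`, kind `2` is `D` or `Q`, kind `3` is `E` or `F`. -/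
abbrev Lb : Type := ℕ × ℕ × Bool

/-- the label of the agent with number `x`, if there are `v` variable gadgets -/
def dec (v x : ℕ) : Lb :=
  if x < 2 * v then (0, x / 2, decide (x % 2 = 1)) else ((x - 2 * v) % 3 + 1, (x - 2 * v) / 3, false)

/-- the number of an agent -/
def code {v m : ℕ} : V v m → Bool × ℕ
  | .K i s => (true, 2 * i.val + s.toNat)
  | .C i s => (false, 2 * i.val + s.toNat)
  | .A j => (true, 2 * v + 3 * j.val)
  | .D j => (true, 2 * v + 3 * j.val + 1)
  | .E j => (true, 2 * v + 3 * j.val + 2)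
  | .P j => (false, 2 * v + 3 * j.val)
  | .Q j => (false, 2 * v + 3 * j.val + 1)
  | .F j => (false, 2 * v + 3 * j.val + 2)

/-- the rough rank of the woman `b` for the man `a` -/
noncomputable def mkey (φ : CNF) (a b : Lb) : ℕ :=
  if a.1 = 0 ∧ b.1 = 0 ∧ a.2.1 = b.2.1 then (if a.2.2 = b.2.2 then 1 else 0)
  else if a.1 = 1 ∧ b.1 = 0 then (if litN φ a.2.1 b.2.1 b.2.2 = true then 1 else 4)
  else if a.2.1 = b.2.1 then
    (if a.1 = b.1 ∧ b.1 ≠ 0 then 0
    else if a.1 = 1 ∧ b.1 = 2 then 2
    else if a.1 = 1 ∧ b.1 = 3 then 3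
    else if a.1 = 2 ∧ b.1 = 1 then 1
    else if a.1 = 3 ∧ b.1 = 2 then 1
    else 4)
  else 4

/-- the rough rank of the man `b` for the woman `a` -/
def wkey (a b : Lb) : ℕ :=
  if a.1 = 0 ∧ b.1 = 0 ∧ a.2.1 = b.2.1 then (if a.2.2 = b.2.2 then 1 else 0)
  else if a.2.1 = b.2.1 then
    (if a.1 = 1 ∧ b.1 = 2 then 0
    else if a.1 = 1 ∧ b.1 = 1 then 1
    else if a.1 = 2 ∧ b.1 = 1 then 0
    else if a.1 = 2 ∧ b.1 = 3 then 1
    else if a.1 = 2 ∧ b.1 = 2 then 2
    else if a.1 = 3 ∧ b.1 = 1 then 0
    else if a.1 = 3 ∧ b.1 = 3 then 1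
    else 4)
  else 4

/-- the list of the man with number `x` -/
noncomputable def mlist (φ : CNF) (x : ℕ) : List ℕ :=
  (List.range 5).flatMap (fun κ => (List.range (nn φ)).filter
    (fun y => decide (mkey φ (dec (nv φ) x) (dec (nv φ) y) = κ)))

/-- the list of the woman with number `x` -/
def wlist (φ : CNF) (x : ℕ) : List ℕ :=
  (List.range 5).flatMap (fun κ => (List.range (nn φ)).filter
    (fun y => decide (wkey (dec (nv φ) x) (dec (nv φ) y) = κ)))

/-- the partner of the man with number `x` in `M₀` -/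
def pt0 (v x : ℕ) : ℕ :=
  if x < 2 * v then x else if (x - 2 * v) % 3 = 0 then x + 2 else x - 1

/-- the partner of the man with number `x` in `M` -/
def pt1 (v x : ℕ) : ℕ :=
  if x < 2 * v then (if x % 2 = 0 then x + 1 else x - 1) else x

/-- the instance -/
noncomputable def inst (φ : CNF) : Inp :=
  (((List.range (nn φ)).map (mlist φ), (List.range (nn φ)).map (wlist φ)),
    (List.range (nn φ)).map (fun x => (x, pt0 (nv φ) x)),
    (List.range (nn φ)).map (fun x => (x, pt1 (nv φ) x)))

/-- the abstract market -/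
noncomputable def absMkt (φ : CNF) : Mkt (V (nv φ) (nc φ)) where
  opp x y := x.man ≠ y.man
  r x y := (market (inst φ).1).r (code x) (code y)

end Pool.Agent.H654R3.RVV
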