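import Pool.Agent.H654R3.RVV.Gad

/-!
# Soundness
-/

namespace Pool.Agent.H654R3.RVV

variable {v m : ℕ} {I : Mkt (V v m)} {lit : Fin m → Fin v → Bool → Bool}
  {M : V v m → V v m → Prop} {S : Set (V v m)} {ρ : Fin v → Option Bool}

/-- The invariant of a clause no literal of which is enabled. -/
def CInv (M : V v m → V v m → Prop) (S : Set (V v m)) (j : Fin m) : Prop :=
  (M (.D j) (.P j) ∧ V.D j ∉ S ∧ V.P j ∉ S) ∧
    ((M (.A j) (.F j) ∧ M (.E j) (.Q j) ∧ V.A j ∉ S ∧ V.F j ∉ S ∧ V.E j ∉ S ∧ V.Q j ∉ S) ∨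
      (M (.A j) (.Q j) ∧ V.A j ∈ S ∧ V.Q j ∈ S))

/-- The invariant: `ρ i = some s` says that the literal `(i, s)` is enabled. -/
structure Inv (lit : Fin m → Fin v → Bool → Bool) (ρ : Fin v → Option Bool)
    (M : V v m → V v m → Prop) (S : Set (V v m)) : Prop where
  sym : ∀ {x y}, M x y → M y x
  fn : ∀ {x y z}, M x y → M x z → y = z
  op : ∀ {x y}, M x y → x.man ≠ y.man
  cross : ∀ {x y}, M x y → x ∈ S → y ∈ S
  r0 : ∀ {i}, ρ i = none → ∀ s, M (.K i s) (.C i s) ∧ V.K i s ∉ S ∧ V.C i s ∉ S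
  r1 : ∀ {i s}, ρ i = some s → M (.K i s) (.C i (!s)) ∧ V.K i s ∈ S ∧ V.C i (!s) ∈ S
  cl : ∀ {j}, (∀ i s, lit j i s = true → ρ i ≠ some s) → CInv M S j

theorem Blocks.symm (hI : Good I lit) (hM : ∀ {x y}, M x y → M y x) {x y : V v m}
    (h : Blocks I M x y) : Blocks I M y x := by
  obtain ⟨h1, h2, h3, h4⟩ := h
  refine ⟨?_, fun h => h2 (hM h), h4, h3⟩
  rw [hI.opp] at h1 ⊢
  exact h1.symm

theorem Blocks.le (hI : Good I lit) {x y z : V v m} (h : Blocks I M x y) (hz : M x z)
    (hop : x.man ≠ z.man) : x.key lit y ≤ x.key lit z ∧ y ≠ z := by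
  obtain ⟨h1, h2, h3, h4⟩ := h
  rw [hI.opp] at h1
  refine ⟨?_, ?_⟩
  · by_contra hlt
    push Not at hlt
    exact absurd (hI.key x z y hop h1 hlt) (by have := h3 z hz; omega)
  · rintro rfl
    exact h2 hz

namespace Inv

variable (H : Inv lit ρ M S) (hI : Good I lit)

include H hI

theorem bK {i : Fin v} {s : Bool} {y : V v m} (h0 : ρ i = none)
    (hb : Blocks I M (.K i s) y) : y = .C i (!s) := by
  have h := hb.le hI (H.r0 h0 s).1 (by simp [V.man])
  have h1 := (hI.opp _ _).1 hb.1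
  cases y with
  | C i' s' =>
    simp only [V.key] at h
    split_ifs at h with h2 h3
    · simp_all
    · subst h2
      cases s <;> cases s' <;> simp_all
    · simp at h
  | _ => simp [V.man, V.key] at h h1

theorem bC {i : Fin v} {s : Bool} {y : V v m} (h0 : ρ i = none)
    (hb : Blocks I M (.C i s) y) : y = .K i (!s) := by
  have h := hb.le hI (H.sym (H.r0 h0 s).1) (by simp [V.man])
  have h1 := (hI.opp _ _).1 hb.1
  cases y with
  | K i' s' =>
    simp only [V.key] at h
    split_ifs at h with h2 h3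
    · simp_all
    · subst h2
      cases s <;> cases s' <;> simp_all
    · simp at h
  | _ => simp [V.man, V.key] at h h1

theorem bK1 {i : Fin v} {s : Bool} {y : V v m} (h0 : ρ i = some s)
    (hb : Blocks I M (.K i s) y) : False := by
  have h := hb.le hI (H.r1 h0).1 (by simp [V.man])
  have h1 := (hI.opp _ _).1 hb.1
  cases y <;> simp [V.man, V.key] at h h1
  · split_ifs at h <;> simp_all

theorem bC1 {i : Fin v} {s : Bool} {y : V v m} (h0 : ρ i = some s)
    (hb : Blocks I M (.C i (!s)) y) : False := by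
  have h := hb.le hI (H.sym (H.r1 h0).1) (by simp [V.man])
  have h1 := (hI.opp _ _).1 hb.1
  cases y <;> simp [V.man, V.key] at h h1
  · split_ifs at h <;> simp_all

theorem bP {j : Fin m} {y : V v m} (h0 : ∀ i s, lit j i s = true → ρ i ≠ some s)
    (hb : Blocks I M (.P j) y) : False := by
  have h := hb.le hI (H.sym (H.cl h0).1.1) (by simp [V.man])
  have h1 := (hI.opp _ _).1 hb.1
  cases y <;> simp [V.man, V.key] at h h1
  all_goals first
    | exact h.2 h.1.symm
    | exact h.2 h.1.symm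
    | (split_ifs at h <;> simp_all)

theorem bD {j : Fin m} {y : V v m} (h0 : ∀ i s, lit j i s = true → ρ i ≠ some s)
    (hb : Blocks I M (.D j) y) : False := by
  have h := hb.le hI (H.cl h0).1.1 (by simp [V.man])
  have h1 := (hI.opp _ _).1 hb.1
  have h2 := hb.symm hI H.sym
  cases y <;> simp [V.man, V.key] at h h1
  · split_ifs at h <;> simp_all
  · split_ifs at h with h3
    · subst h3
      rcases (H.cl h0).2 with h4 | h4
      · have h5 := h2.le hI (H.sym h4.2.1) (by simp [V.man])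
        simp [V.key] at h5
      · have h5 := h2.le hI (H.sym h4.1) (by simp [V.man])
        simp [V.key] at h5
    · simp at h

theorem bAC {j : Fin m} {i : Fin v} {s : Bool} (h0 : ∀ i s, lit j i s = true → ρ i ≠ some s)
    (hl : lit j i s = true) (hb : Blocks I M (.A j) (.C i s)) : False := by
  have h2 := hb.symm hI H.sym
  rcases hρ : ρ i with _ | t
  · have h := h2.le hI (H.sym (H.r0 hρ s).1) (by simp [V.man])
    simp [V.key] at h
  · have ht : t ≠ s := fun e => h0 i s hl (e ▸ hρ)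
    have hs : s = !t := by cases s <;> cases t <;> simp_all
    subst hs
    exact H.bC1 hI hρ h2

theorem bQ {j : Fin m} {y : V v m} (h0 : ∀ i s, lit j i s = true → ρ i ≠ some s)
    (h1 : M (.E j) (.Q j)) (hb : Blocks I M (.Q j) y) : y = .A j := by
  have h := hb.le hI (H.sym h1) (by simp [V.man])
  have h1 := (hI.opp _ _).1 hb.1
  cases y <;> simp [V.man, V.key] at h h1
  all_goals first
    | exact h.2 h.1.symm
    | exact h.2 h.1.symm
    | (split_ifs at h <;> simp_all)

theorem bQ2 {j : Fin m} {y : V v m} (h1 : M (.A j) (.Q j)) (hb : Blocks I M (.Q j) y) :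
    False := by
  have h := hb.le hI (H.sym h1) (by simp [V.man])
  have h1 := (hI.opp _ _).1 hb.1
  cases y <;> simp [V.man, V.key] at h h1
  all_goals first
    | exact h.2 h.1.symm
    | exact h.2 h.1.symm
    | (split_ifs at h <;> simp_all)

theorem bF {j : Fin m} {y : V v m} (h1 : M (.A j) (.F j)) (hb : Blocks I M (.F j) y) :
    False := by
  have h := hb.le hI (H.sym h1) (by simp [V.man])
  have h1 := (hI.opp _ _).1 hb.1
  cases y <;> simp [V.man, V.key] at h h1
  all_goals first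
    | exact h.2 h.1.symm
    | exact h.2 h.1.symm
    | (split_ifs at h <;> simp_all)

theorem bE {j : Fin m} {y : V v m} (h1 : M (.A j) (.F j)) (h3 : M (.E j) (.Q j))
    (hb : Blocks I M (.E j) y) : False := by
  have h := hb.le hI h3 (by simp [V.man])
  have h4 := (hI.opp _ _).1 hb.1
  have h2 := hb.symm hI H.sym
  cases y <;> simp [V.man, V.key] at h h4
  · split_ifs at h <;> simp_all
  · split_ifs at h with h5
    · subst h5
      exact H.bF hI h1 h2
    · simp at h

theorem bA {j : Fin m} {y : V v m} (h0 : ∀ i s, lit j i s = true → ρ i ≠ some s)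
    (h1 : M (.A j) (.F j)) (hb : Blocks I M (.A j) y) : y = .Q j := by
  have h := hb.le hI h1 (by simp [V.man])
  have h4 := (hI.opp _ _).1 hb.1
  have h2 := hb.symm hI H.sym
  cases y <;> simp [V.man, V.key] at h h4
  · split_ifs at h with h5
    · exact (H.bAC hI h0 h5 hb).elim
    · simp at h
  · split_ifs at h with h5
    · subst h5
      exact (H.bP hI h0 h2).elim
    · simp at h
  · split_ifs at h with h5
    · subst h5
      rfl
    · simp at h
  · split_ifs at h with h5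
    · subst h5
      simp at h
    · simp at h

theorem bA2 {j : Fin m} {y : V v m} (h0 : ∀ i s, lit j i s = true → ρ i ≠ some s)
    (h1 : M (.A j) (.Q j)) (hb : Blocks I M (.A j) y) : False := by
  have h := hb.le hI h1 (by simp [V.man])
  have h4 := (hI.opp _ _).1 hb.1
  have h2 := hb.symm hI H.sym
  cases y <;> simp [V.man, V.key] at h h4
  · split_ifs at h with h5
    · exact (H.bAC hI h0 h5 hb).elim
    · simp at h
  · split_ifs at h with h5
    · subst h5
      exact (H.bP hI h0 h2).elim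
    · simp at h
  · split_ifs at h with h5
    · subst h5
      simp at h
    · simp at h
  · split_ifs at h with h5 <;> simp at h

end Inv

theorem unmatch_of {a x y : V v m} (h : M x y) (hx : x ≠ a) (hy : y ≠ a) : unmatch a M x y :=
  ⟨h, hx, hy⟩

theorem join_of {a b x y : V v m} (h : M x y) (hxa : x ≠ a) (hxb : x ≠ b) (hya : y ≠ a)
    (hyb : y ≠ b) : join a b M x y := Or.inr (Or.inr ⟨⟨h, hxb, hyb⟩, hxa, hya⟩)

theorem join_sym {a b : V v m} (hM : ∀ {x y}, M x y → M y x) {x y : V v m}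
    (h : join a b M x y) : join a b M y x := by
  rcases h with ⟨h1, h2⟩ | ⟨h1, h2⟩ | ⟨⟨h1, h2, h3⟩, h4, h5⟩
  · exact Or.inr (Or.inl ⟨h2, h1⟩)
  · exact Or.inl ⟨h2, h1⟩
  · exact Or.inr (Or.inr ⟨⟨hM h1, h3, h2⟩, h5, h4⟩)

theorem join_fn {a b : V v m} (hM : ∀ {x y z}, M x y → M x z → y = z) (hab : a ≠ b)
    {x y z : V v m} (h : join a b M x y) (h' : join a b M x z) : y = z := by
  rcases h with ⟨h1, h2⟩ | ⟨h1, h2⟩ | ⟨⟨h1, h2, h3⟩, h4, h5⟩ <;>
    rcases h' with ⟨g1, g2⟩ | ⟨g1, g2⟩ | ⟨⟨g1, g2, g3⟩, g4, g5⟩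
  · rw [h2, g2]
  · exact absurd (h1.symm.trans g1) hab
  · exact absurd h1 g4
  · exact absurd (g1.symm.trans h1) hab
  · rw [h2, g2]
  · exact absurd h1 g2
  · exact absurd g1 h4
  · exact absurd g1 h2
  · exact hM h1 g1

/-- `enter` keeps the invariant. -/
theorem Inv.enter (H : Inv lit ρ M S) (hI : Good I lit) {a b : V v m} (ha : a ∉ S) (hb : b ∈ S)
    (hB : Blocks I M a b) : Inv lit ρ (unmatch a M) (insert a S) where
  sym h := ⟨H.sym h.1, h.2.2, h.2.1⟩
  fn h h' := H.fn h.1 h'.1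
  op h := H.op h.1
  cross := by
    rintro x y ⟨h1, h2, h3⟩ hx
    rcases hx with rfl | hx
    · exact absurd rfl h2
    · exact Or.inr (H.cross h1 hx)
  r0 := by
    intro i h0 s
    obtain ⟨h1, h2, h3⟩ := H.r0 h0 s
    have e1 : V.K i s ≠ a := by
      rintro rfl
      have := H.bK hI h0 hB
      subst this
      exact (H.r0 h0 (!s)).2.2 hb
    have e2 : V.C i s ≠ a := by
      rintro rfl
      have := H.bC hI h0 hB
      subst this
      exact (H.r0 h0 (!s)).2.1 hb
    exact ⟨⟨h1, e1, e2⟩, by simp [e1, h2], by simp [e2, h3]⟩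
  r1 := by
    intro i s h0
    obtain ⟨h1, h2, h3⟩ := H.r1 h0
    exact ⟨⟨h1, fun e => ha (e ▸ h2), fun e => ha (e ▸ h3)⟩, Or.inr h2, Or.inr h3⟩
  cl := by
    intro j h0
    obtain ⟨⟨h1, h2, h3⟩, h4⟩ := H.cl h0
    have e1 : V.D j ≠ a := by rintro rfl; exact H.bD hI h0 hB
    have e2 : V.P j ≠ a := by rintro rfl; exact H.bP hI h0 hB
    refine ⟨⟨⟨h1, e1, e2⟩, by simp [e1, h2], by simp [e2, h3]⟩, ?_⟩
    rcases h4 with ⟨g1, g2, g3, g4, g5, g6⟩ | ⟨g1, g2, g3⟩
    · left
      have e3 : V.A j ≠ a := by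
        rintro rfl
        have := H.bA hI h0 g1 hB
        subst this
        exact g6 hb
      have e4 : V.F j ≠ a := by rintro rfl; exact H.bF hI g1 hB
      have e5 : V.E j ≠ a := by rintro rfl; exact H.bE hI g1 g2 hB
      have e6 : V.Q j ≠ a := by
        rintro rfl
        have := H.bQ hI h0 g2 hB
        subst this
        exact g3 hb
      exact ⟨⟨g1, e3, e4⟩, ⟨g2, e5, e6⟩, by simp [e3, g3], by simp [e4, g4], by simp [e5, g5],
        by simp [e6, g6]⟩
    · right
      exact ⟨⟨g1, fun e => ha (e ▸ g2), fun e => ha (e ▸ g3)⟩, Or.inr g2, Or.inr g3⟩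

/-- A proposal inside `S` keeps the invariant. -/
theorem Inv.propose (H : Inv lit ρ M S) (hI : Good I lit) {a b : V v m} (ha : a ∈ S) (hb : b ∈ S)
    (hB : Blocks I M a b) : Inv lit ρ (join a b M) S := by
  have hB' := hB.symm hI H.sym
  have hab : a.man ≠ b.man := (hI.opp _ _).1 hB.1
  have hne : a ≠ b := fun e => hab (by rw [e])
  refine ⟨fun h => join_sym H.sym h, fun h h' => join_fn H.fn hne h h', ?_, ?_, ?_, ?_, ?_⟩
  · rintro x y (⟨rfl, rfl⟩ | ⟨rfl, rfl⟩ | h)
    · exact hab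
    · exact hab.symm
    · exact H.op h.1.1
  · rintro x y (⟨rfl, rfl⟩ | ⟨rfl, rfl⟩ | h) hx
    · exact hb
    · exact ha
    · exact H.cross h.1.1 hx
  · intro i h0 s
    obtain ⟨h1, h2, h3⟩ := H.r0 h0 s
    exact ⟨join_of h1 (fun e => h2 (e ▸ ha)) (fun e => h2 (e ▸ hb)) (fun e => h3 (e ▸ ha))
      (fun e => h3 (e ▸ hb)), h2, h3⟩
  · intro i s h0
    obtain ⟨h1, h2, h3⟩ := H.r1 h0
    refine ⟨join_of h1 ?_ ?_ ?_ ?_, h2, h3⟩
    · rintro rfl; exact H.bK1 hI h0 hB
    · rintro rfl; exact H.bK1 hI h0 hB'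
    · rintro rfl; exact H.bC1 hI h0 hB
    · rintro rfl; exact H.bC1 hI h0 hB'
  · intro j h0
    obtain ⟨⟨h1, h2, h3⟩, h4⟩ := H.cl h0
    refine ⟨⟨join_of h1 (fun e => h2 (e ▸ ha)) (fun e => h2 (e ▸ hb)) (fun e => h3 (e ▸ ha))
      (fun e => h3 (e ▸ hb)), h2, h3⟩, ?_⟩
    rcases h4 with ⟨g1, g2, g3, g4, g5, g6⟩ | ⟨g1, g2, g3⟩
    · left
      exact ⟨join_of g1 (fun e => g3 (e ▸ ha)) (fun e => g3 (e ▸ hb)) (fun e => g4 (e ▸ ha))
        (fun e => g4 (e ▸ hb)), join_of g2 (fun e => g5 (e ▸ ha)) (fun e => g5 (e ▸ hb))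
        (fun e => g6 (e ▸ ha)) (fun e => g6 (e ▸ hb)), g3, g4, g5, g6⟩
    · right
      refine ⟨join_of g1 ?_ ?_ ?_ ?_, g2, g3⟩
      · rintro rfl; exact H.bA2 hI h0 g1 hB
      · rintro rfl; exact H.bA2 hI h0 g1 hB'
      · rintro rfl; exact H.bQ2 hI g1 hB
      · rintro rfl; exact H.bQ2 hI g1 hB'

/-- `ρ` after the pair `(a, b)` has been formed. -/
theorem Inv.pairOut (H : Inv lit ρ M S) (hI : Good I lit) {a b : V v m} (ha : a ∉ S)
    (hb : b ∉ S) (hB : Blocks I M a b) :
    ∃ ρ', Inv lit ρ' (join a b M) (insert a (insert b S)) := by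
  classical
  have hB' := hB.symm hI H.sym
  have hab : a.man ≠ b.man := (hI.opp _ _).1 hB.1
  have hne : a ≠ b := fun e => hab (by rw [e])
  have hsym : ∀ {x y}, join a b M x y → join a b M y x := fun h => join_sym H.sym h
  have hfn : ∀ {x y z}, join a b M x y → join a b M x z → y = z := fun h h' =>
    join_fn H.fn hne h h'
  have hop : ∀ {x y}, join a b M x y → x.man ≠ y.man := by
    rintro x y (⟨rfl, rfl⟩ | ⟨rfl, rfl⟩ | h)
    · exact hab
    · exact hab.symm
    · exact H.op h.1.1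
  have hcross : ∀ {x y}, join a b M x y → x ∈ insert a (insert b S) →
      y ∈ insert a (insert b S) := by
    rintro x y (⟨rfl, rfl⟩ | ⟨rfl, rfl⟩ | ⟨⟨h1, h2, h3⟩, h4, h5⟩) hx
    · exact Or.inr (Or.inl rfl)
    · exact Or.inl rfl
    · rcases hx with rfl | rfl | hx
      · exact absurd rfl h4
      · exact absurd rfl h2
      · exact Or.inr (Or.inr (H.cross h1 hx))
  -- the clause part
  have hcl : ∀ {j}, (∀ i s, lit j i s = true → ρ i ≠ some s) →
      CInv (join a b M) (insert a (insert b S)) j := by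
    intro j h0
    obtain ⟨⟨h1, h2, h3⟩, h4⟩ := H.cl h0
    have e1 : V.D j ≠ a := by rintro rfl; exact H.bD hI h0 hB
    have e2 : V.P j ≠ a := by rintro rfl; exact H.bP hI h0 hB
    have e1' : V.D j ≠ b := by rintro rfl; exact H.bD hI h0 hB'
    have e2' : V.P j ≠ b := by rintro rfl; exact H.bP hI h0 hB'
    refine ⟨⟨join_of h1 e1 e1' e2 e2', by simp [e1, e1', h2], by simp [e2, e2', h3]⟩, ?_⟩
    rcases h4 with ⟨g1, g2, g3, g4, g5, g6⟩ | ⟨g1, g2, g3⟩
    · by_cases hA : a = V.A j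
      · subst hA
        have := H.bA hI h0 g1 hB
        subst this
        exact Or.inr ⟨Or.inl ⟨rfl, rfl⟩, Or.inl rfl, Or.inr (Or.inl rfl)⟩
      by_cases hA' : b = V.A j
      · subst hA'
        have := H.bA hI h0 g1 hB'
        subst this
        exact Or.inr ⟨Or.inr (Or.inl ⟨rfl, rfl⟩), Or.inr (Or.inl rfl), Or.inl rfl⟩
      have hQ : V.Q j ≠ a := by
        rintro rfl
        exact hA' (H.bQ hI h0 g2 hB)
      have hQ' : V.Q j ≠ b := by
        rintro rfl
        exact hA (H.bQ hI h0 g2 hB')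
      have e4 : V.F j ≠ a := by rintro rfl; exact H.bF hI g1 hB
      have e5 : V.E j ≠ a := by rintro rfl; exact H.bE hI g1 g2 hB
      have e4' : V.F j ≠ b := by rintro rfl; exact H.bF hI g1 hB'
      have e5' : V.E j ≠ b := by rintro rfl; exact H.bE hI g1 g2 hB'
      left
      exact ⟨join_of g1 (Ne.symm hA) (Ne.symm hA') e4 e4', join_of g2 e5 e5' hQ hQ',
        by simp [Ne.symm hA, Ne.symm hA', g3], by simp [e4, e4', g4],
        by simp [e5, e5', g5], by simp [hQ, hQ', g6]⟩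
    · right
      exact ⟨join_of g1 (fun e => ha (e ▸ g2)) (fun e => hb (e ▸ g2)) (fun e => ha (e ▸ g3))
        (fun e => hb (e ▸ g3)), Or.inr (Or.inr g2), Or.inr (Or.inr g3)⟩
  -- root pairs which are not touched
  have hr0 : ∀ {i}, ρ i = none → (∀ s, V.K i s ≠ a ∧ V.K i s ≠ b) → ∀ s,
      join a b M (.K i s) (.C i s) ∧ V.K i s ∉ insert a (insert b S) ∧
        V.C i s ∉ insert a (insert b S) := by
    intro i h0 h s
    obtain ⟨h1, h2, h3⟩ := H.r0 h0 s
    have e1 : V.C i s ≠ a := by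
      rintro rfl
      exact (h (!s)).2 (H.bC hI h0 hB).symm
    have e2 : V.C i s ≠ b := by
      rintro rfl
      exact (h (!s)).1 (H.bC hI h0 hB').symm
    refine ⟨join_of h1 (h s).1 (h s).2 e1 e2, ?_, ?_⟩
    · simp [(h s).1, (h s).2, h2]
    · simp [e1, e2, h3]
  have hr1 : ∀ {i s}, ρ i = some s → join a b M (.K i s) (.C i (!s)) ∧
      V.K i s ∈ insert a (insert b S) ∧ V.C i (!s) ∈ insert a (insert b S) := by
    intro i s h0
    obtain ⟨h1, h2, h3⟩ := H.r1 h0
    refine ⟨join_of h1 ?_ ?_ ?_ ?_, Or.inr (Or.inr h2), Or.inr (Or.inr h3)⟩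
    · rintro rfl; exact H.bK1 hI h0 hB
    · rintro rfl; exact H.bK1 hI h0 hB'
    · rintro rfl; exact H.bC1 hI h0 hB
    · rintro rfl; exact H.bC1 hI h0 hB'
  by_cases hx : ∃ i s, ρ i = none ∧ (V.K i s = a ∨ V.K i s = b)
  · obtain ⟨i, s, h0, hx⟩ := hx
    have hsome : (a = V.K i s ∧ b = V.C i (!s)) ∨ (b = V.K i s ∧ a = V.C i (!s)) := by
      rcases hx with rfl | rfl
      · exact Or.inl ⟨rfl, H.bK hI h0 hB⟩
      · exact Or.inr ⟨rfl, H.bK hI h0 hB'⟩
    refine ⟨Function.update ρ i (some s), hsym, hfn, hop, hcross, ?_, ?_, ?_⟩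
    · intro i' h1 s'
      by_cases hi : i' = i
      · subst hi
        simp at h1
      · rw [Function.update_of_ne hi] at h1
        refine hr0 h1 (fun t => ?_) s'
        rcases hsome with ⟨rfl, rfl⟩ | ⟨rfl, rfl⟩ <;> simp [hi]
    · intro i' s' h1
      by_cases hi : i' = i
      · subst hi
        simp only [Function.update_self, Option.some.injEq] at h1
        subst h1
        rcases hsome with ⟨rfl, rfl⟩ | ⟨rfl, rfl⟩
        · exact ⟨Or.inl ⟨rfl, rfl⟩, Or.inl rfl, Or.inr (Or.inl rfl)⟩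
        · exact ⟨Or.inr (Or.inl ⟨rfl, rfl⟩), Or.inr (Or.inl rfl), Or.inl rfl⟩
      · rw [Function.update_of_ne hi] at h1
        exact hr1 h1
    · intro j h1
      refine hcl fun i' s' hl => ?_
      have h2 := h1 i' s' hl
      by_cases hi : i' = i
      · subst hi
        rw [h0]
        simp
      · rwa [Function.update_of_ne hi] at h2
  · push Not at hx
    exact ⟨ρ, hsym, hfn, hop, hcross, fun h0 => hr0 h0 fun s => hx _ s h0, hr1, hcl⟩

theorem blocks_restr (H : Inv lit ρ M S) {p b : V v m} (hp : p ∈ S) (hb : b ∈ S)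
    (h : Blocks I (restr S M) p b) : Blocks I M p b := by
  obtain ⟨h1, h2, h3, h4⟩ := h
  exact ⟨h1, fun h => h2 ⟨h, hp, hb⟩, fun c hc => h3 c ⟨hc, hp, H.cross hc hp⟩,
    fun c hc => h4 c ⟨hc, hb, H.cross hc hb⟩⟩

theorem chain_inv (hI : Good I lit) {p : V v m} {M' : V v m → V v m → Prop}
    (h : Chain I S M p M') : Inv lit ρ M S → p ∈ S → Inv lit ρ M' S := by
  induction h with
  | stop h => exact fun H _ => H
  | free h hb ht ih =>
    exact fun H hp => ih (H.propose hI hp h.1 (blocks_restr H hp h.1 h.2.1)) hp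
  | swap h hb ht ih =>
    exact fun H hp => ih (H.propose hI hp h.1 (blocks_restr H hp h.1 h.2.1)) (H.cross hb h.1)

theorem step_inv (hI : Good I lit) {s t : (V v m → V v m → Prop) × Set (V v m)}
    (h : Step I s t) (hs : ∃ ρ, Inv lit ρ s.1 s.2) : ∃ ρ, Inv lit ρ t.1 t.2 := by
  obtain ⟨ρ, H⟩ := hs
  induction h with
  | enter ha hb h ht => exact ⟨ρ, chain_inv hI ht (H.enter hI ha hb h) (Or.inl rfl)⟩
  | @pair M S a b hn h =>
    by_cases ha : a ∈ S
    · by_cases hb : b ∈ S
      · refine ⟨ρ, ?_⟩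
        have := H.propose hI ha hb h
        rw [Set.insert_eq_of_mem hb, Set.insert_eq_of_mem ha]
        exact this
      · exact absurd (h.symm hI H.sym) (hn b a hb ha)
    · by_cases hb : b ∈ S
      · exact absurd h (hn a b ha hb)
      · exact H.pairOut hI ha hb h

theorem init_inv : Inv lit (fun _ => none) (rel (init (v := v) (m := m))) ∅ := by
  refine ⟨?_, ?_, ?_, ?_, ?_, ?_, ?_⟩
  · intro x y h
    cases x <;> cases y <;> simp_all [rel, init]
  · intro x y z h h'
    unfold rel at h h'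
    rw [h] at h'
    exact Option.some.inj h'
  · intro x y h
    cases x <;> cases y <;> simp_all [rel, init, V.man]
  · intro x y h hx
    exact hx.elim
  · intro i _ s
    simp [rel, init]
  · intro i s h
    simp at h
  · intro j _
    simp [CInv, rel, init]

/-- Soundness. -/
theorem sound (hI : Good I lit) (h : Reaches I (rel init) (rel goal)) : Sat lit := by
  obtain ⟨S, h⟩ := h
  have key : ∀ t, Relation.ReflTransGen (Step I) (rel init, (∅ : Set (V v m))) t →
      ∃ ρ, Inv lit ρ t.1 t.2 := by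
    intro t ht
    induction ht with
    | refl => exact ⟨_, init_inv⟩
    | tail _ h ih => exact step_inv hI h ih
  obtain ⟨ρ, H⟩ := key _ h
  refine ⟨fun i => decide (ρ i = some true), fun j => ?_⟩
  by_contra hne
  push Not at hne
  have h0 : ∀ i s, lit j i s = true → ρ i ≠ some s := by
    intro i s hl hs
    have := hne i
    rw [hs] at this
    cases s <;> simp_all
  have h1 := (H.cl h0).1.1
  simp [rel, goal] at h1

end Pool.Agent.H654R3.RVV
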