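import Pool.Agent.H654R3.RVV.EncDefs

/-!
# Transfer along an embedding
-/

namespace Pool.Agent.H654R3.RVV

namespace Tr

variable {A B : Type}

/-- the image of a relation -/
abbrev MP (φ : A → B) (M : A → A → Prop) : B → B → Prop := Relation.Map M φ φ

section

variable {φ : A → B} (hφ : Function.Injective φ)

include hφ

theorem mp_iff {M : A → A → Prop} {a b : A} : MP φ M (φ a) (φ b) ↔ M a b := by
  constructor
  · rintro ⟨a', b', h, h1, h2⟩
    rwa [hφ h1, hφ h2] at h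
  · intro h
    exact ⟨a, b, h, rfl, rfl⟩

theorem mp_inj {M M' : A → A → Prop} (h : MP φ M = MP φ M') : M = M' := by
  funext a b
  apply propext
  rw [← mp_iff hφ (M := M), ← mp_iff hφ (M := M'), h]

theorem restr_mp (S : Set A) (M : A → A → Prop) : restr (φ '' S) (MP φ M) = MP φ (restr S M) := by
  funext x y
  apply propext
  constructor
  · rintro ⟨⟨a, b, h, rfl, rfl⟩, h1, h2⟩
    exact ⟨a, b, ⟨h, (hφ.mem_set_image).1 h1, (hφ.mem_set_image).1 h2⟩, rfl, rfl⟩
  · rintro ⟨a, b, ⟨h, h1, h2⟩, rfl, rfl⟩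
    exact ⟨⟨a, b, h, rfl, rfl⟩, Set.mem_image_of_mem _ h1, Set.mem_image_of_mem _ h2⟩

theorem unmatch_mp (a : A) (M : A → A → Prop) : unmatch (φ a) (MP φ M) = MP φ (unmatch a M) := by
  funext x y
  apply propext
  constructor
  · rintro ⟨⟨c, d, h, rfl, rfl⟩, h1, h2⟩
    exact ⟨c, d, ⟨h, fun e => h1 (e ▸ rfl), fun e => h2 (e ▸ rfl)⟩, rfl, rfl⟩
  · rintro ⟨c, d, ⟨h, h1, h2⟩, rfl, rfl⟩
    exact ⟨⟨c, d, h, rfl, rfl⟩, fun e => h1 (hφ e), fun e => h2 (hφ e)⟩

theorem join_mp (a b : A) (M : A → A → Prop) :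
    join (φ a) (φ b) (MP φ M) = MP φ (join a b M) := by
  funext x y
  apply propext
  unfold join
  rw [unmatch_mp hφ, unmatch_mp hφ]
  constructor
  · rintro (⟨rfl, rfl⟩ | ⟨rfl, rfl⟩ | ⟨c, d, h, rfl, rfl⟩)
    · exact ⟨a, b, Or.inl ⟨rfl, rfl⟩, rfl, rfl⟩
    · exact ⟨b, a, Or.inr (Or.inl ⟨rfl, rfl⟩), rfl, rfl⟩
    · exact ⟨c, d, Or.inr (Or.inr h), rfl, rfl⟩
  · rintro ⟨c, d, (⟨rfl, rfl⟩ | ⟨rfl, rfl⟩ | h), rfl, rfl⟩
    · exact Or.inl ⟨rfl, rfl⟩
    · exact Or.inr (Or.inl ⟨rfl, rfl⟩)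
    · exact Or.inr (Or.inr ⟨c, d, h, rfl, rfl⟩)

end

/-- The hypotheses of the transfer. -/
structure Hyp (I : Mkt A) (J : Mkt B) (φ : A → B) : Prop where
  inj : Function.Injective φ
  sym : ∀ x y, I.opp x y → I.opp y x
  opp : ∀ x y, J.opp x y ↔ ∃ a b, φ a = x ∧ φ b = y ∧ I.opp a b
  r : ∀ a b, I.opp a b → J.r (φ a) (φ b) = I.r a b

/-- All pairs are of opposite sexes. -/
def OK (I : Mkt A) (M : A → A → Prop) : Prop := ∀ a b, M a b → I.opp a b

variable {I : Mkt A} {J : Mkt B} {φ : A → B}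

theorem opp_iff' (H : Hyp I J φ) {a b : A} : J.opp (φ a) (φ b) ↔ I.opp a b := by
  rw [H.opp]
  constructor
  · rintro ⟨a', b', h1, h2, h⟩
    rwa [H.inj h1, H.inj h2] at h
  · intro h
    exact ⟨a, b, rfl, rfl, h⟩

theorem blocks_iff (H : Hyp I J φ) {M : A → A → Prop} (hM : OK I M) {a b : A} :
    Blocks J (MP φ M) (φ a) (φ b) ↔ Blocks I M a b := by
  unfold Blocks
  rw [opp_iff' H, mp_iff H.inj]
  refine and_congr_right fun hab => and_congr_right fun _ => and_congr ?_ ?_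
  · constructor
    · intro h c hc
      have := h (φ c) ((mp_iff H.inj).2 hc)
      rwa [H.r a b hab, H.r a c (hM a c hc)] at this
    · rintro h y ⟨a', c, hc, h1, rfl⟩
      rw [H.inj h1] at hc
      rw [H.r a b hab, H.r a c (hM a c hc)]
      exact h c hc
  · constructor
    · intro h c hc
      have := h (φ c) ((mp_iff H.inj).2 hc)
      rwa [H.r b a (H.sym a b hab), H.r b c (hM b c hc)] at this
    · rintro h y ⟨b', c, hc, h1, rfl⟩
      rw [H.inj h1] at hc
      rw [H.r b a (H.sym a b hab), H.r b c (hM b c hc)]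
      exact h c hc

theorem blocks_range (H : Hyp I J φ) {N : B → B → Prop} {x y : B} (h : Blocks J N x y) :
    ∃ a b, φ a = x ∧ φ b = y := by
  obtain ⟨a, b, h1, h2, -⟩ := (H.opp x y).1 h.1
  exact ⟨a, b, h1, h2⟩

theorem OK.restr {M : A → A → Prop} (hM : OK I M) (S : Set A) : OK I (restr S M) :=
  fun a b h => hM a b h.1

theorem OK.unmatch {M : A → A → Prop} (hM : OK I M) (a : A) : OK I (unmatch a M) :=
  fun x y h => hM x y h.1

theorem OK.join (H : Hyp I J φ) {M : A → A → Prop} (hM : OK I M) {a b : A} (h : I.opp a b) :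
    OK I (join a b M) := by
  rintro x y (⟨rfl, rfl⟩ | ⟨rfl, rfl⟩ | h1)
  · exact h
  · exact H.sym _ _ h
  · exact (hM.unmatch b).unmatch a x y h1

theorem rblocks_iff (H : Hyp I J φ) {M : A → A → Prop} (hM : OK I M) (S : Set A) {a b : A} :
    Blocks J (restr (φ '' S) (MP φ M)) (φ a) (φ b) ↔ Blocks I (restr S M) a b := by
  rw [restr_mp H.inj, blocks_iff H (hM.restr S)]

theorem best_iff (H : Hyp I J φ) {M : A → A → Prop} (hM : OK I M) (S : Set A) {p b : A} :
    Best J (φ '' S) (MP φ M) (φ p) (φ b) ↔ Best I S M p b := by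
  unfold Best
  rw [rblocks_iff H hM, H.inj.mem_set_image]
  refine and_congr_right fun _ => and_congr_right fun hb => ?_
  constructor
  · intro h b' hb' hbl
    have := h (φ b') (Set.mem_image_of_mem _ hb') ((rblocks_iff H hM S).2 hbl)
    rwa [H.r p b hb.1, H.r p b' hbl.1] at this
  · rintro h _ ⟨b', hb', rfl⟩ hbl
    rw [rblocks_iff H hM] at hbl
    rw [H.r p b hb.1, H.r p b' hbl.1]
    exact h b' hb' hbl

theorem chain_fwd (H : Hyp I J φ) {S : Set A} {M M' : A → A → Prop} {p : A}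
    (h : Chain I S M p M') (hM : OK I M) :
    OK I M' ∧ Chain J (φ '' S) (MP φ M) (φ p) (MP φ M') := by
  induction h with
  | @stop M p h =>
    refine ⟨hM, Chain.stop ?_⟩
    rintro _ ⟨b, hb, rfl⟩ hbl
    exact h b hb ((rblocks_iff H hM S).1 hbl)
  | @free M M' p b h hb _ ih =>
    obtain ⟨h1, h2⟩ := ih (hM.join H h.2.1.1)
    refine ⟨h1, Chain.free ((best_iff H hM S).2 h) ?_ (by rwa [join_mp H.inj])⟩
    rintro y ⟨b', c, hc, h3, rfl⟩
    rw [H.inj h3] at hc
    exact hb c hc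
  | @swap M M' p b c h hb _ ih =>
    obtain ⟨h1, h2⟩ := ih (hM.join H h.2.1.1)
    exact ⟨h1, Chain.swap ((best_iff H hM S).2 h) ((mp_iff H.inj).2 hb) (by rwa [join_mp H.inj])⟩

theorem chain_bwd (H : Hyp I J φ) {S : Set A} {N N' : B → B → Prop} {x : B}
    (h : Chain J (φ '' S) N x N') : ∀ (M : A → A → Prop) (p : A), N = MP φ M → x = φ p → OK I M →
      ∃ M', N' = MP φ M' ∧ OK I M' ∧ Chain I S M p M' := by
  induction h with
  | @stop N x h =>
    rintro M p rfl rfl hM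
    refine ⟨M, rfl, hM, Chain.stop fun b hb hbl => ?_⟩
    exact h (φ b) (Set.mem_image_of_mem _ hb) ((rblocks_iff H hM S).2 hbl)
  | @free N N' x y h hb _ ih =>
    rintro M p rfl rfl hM
    obtain ⟨b, -, rfl⟩ := h.1
    have hB := (best_iff H hM S).1 h
    obtain ⟨M', h1, h2, h3⟩ := ih (join p b M) p (join_mp H.inj p b M) rfl (hM.join H hB.2.1.1)
    exact ⟨M', h1, h2, Chain.free hB (fun c hc => hb (φ c) ((mp_iff H.inj).2 hc)) h3⟩
  | @swap N N' x y z h hb _ ih =>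
    rintro M p rfl rfl hM
    obtain ⟨b, -, rfl⟩ := h.1
    have hB := (best_iff H hM S).1 h
    obtain ⟨b', c, hc, h4, rfl⟩ := hb
    rw [H.inj h4] at hc
    obtain ⟨M', h1, h2, h3⟩ := ih (join p b M) c (join_mp H.inj p b M) rfl (hM.join H hB.2.1.1)
    exact ⟨M', h1, h2, Chain.swap hB hc h3⟩

theorem step_fwd (H : Hyp I J φ) {s t : (A → A → Prop) × Set A} (h : Step I s t) (hM : OK I s.1) :
    OK I t.1 ∧ Step J (MP φ s.1, φ '' s.2) (MP φ t.1, φ '' t.2) := by
  cases h with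
  | @enter M M' S a b ha hb h ht =>
    obtain ⟨h1, h2⟩ := chain_fwd H ht (OK.unmatch hM a)
    refine ⟨h1, ?_⟩
    simp only
    rw [Set.image_insert_eq]
    refine Step.enter (a := φ a) (b := φ b) ?_ (Set.mem_image_of_mem _ hb)
      ((blocks_iff H hM).2 h) ?_
    · rwa [H.inj.mem_set_image]
    · rw [unmatch_mp H.inj, ← Set.image_insert_eq]
      exact h2
  | @pair M S a b hn h =>
    refine ⟨OK.join H hM h.1, ?_⟩
    simp only
    rw [Set.image_insert_eq, Set.image_insert_eq, ← join_mp H.inj]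
    refine Step.pair ?_ ((blocks_iff H hM).2 h)
    intro x y hx hy hxy
    obtain ⟨c, d, rfl, rfl⟩ := blocks_range H hxy
    rw [H.inj.mem_set_image] at hx hy
    exact hn c d hx hy ((blocks_iff H hM).1 hxy)

theorem step_bwd (H : Hyp I J φ) {s t : (B → B → Prop) × Set B} (h : Step J s t) :
    ∀ (M : A → A → Prop) (S : Set A), s = (MP φ M, φ '' S) → OK I M →
      ∃ M' S', t = (MP φ M', φ '' S') ∧ OK I M' ∧ Step I (M, S) (M', S') := by
  cases h with
  | @enter N N' T x y ha hb h ht =>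
    intro M S hs hM
    rw [Prod.mk.injEq] at hs
    obtain ⟨rfl, rfl⟩ := hs
    obtain ⟨a, b, rfl, rfl⟩ := blocks_range H h
    rw [unmatch_mp H.inj, ← Set.image_insert_eq] at ht
    obtain ⟨M', rfl, h2, h3⟩ := chain_bwd H ht (unmatch a M) a rfl rfl (OK.unmatch hM a)
    rw [H.inj.mem_set_image] at ha hb
    exact ⟨M', insert a S, by rw [Set.image_insert_eq], h2,
      Step.enter ha hb ((blocks_iff H hM).1 h) h3⟩
  | @pair N T x y hn h =>
    intro M S hs hM
    rw [Prod.mk.injEq] at hs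
    obtain ⟨rfl, rfl⟩ := hs
    obtain ⟨a, b, rfl, rfl⟩ := blocks_range H h
    have hB := (blocks_iff H hM).1 h
    refine ⟨join a b M, insert a (insert b S), ?_, OK.join H hM hB.1, Step.pair ?_ hB⟩
    · rw [Set.image_insert_eq, Set.image_insert_eq, join_mp H.inj]
    · intro c d hc hd hcd
      exact hn (φ c) (φ d) (by rwa [H.inj.mem_set_image]) (by rwa [H.inj.mem_set_image])
        ((blocks_iff H hM).2 hcd)

theorem steps_fwd (H : Hyp I J φ) {s t : (A → A → Prop) × Set A}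
    (h : Relation.ReflTransGen (Step I) s t) (hM : OK I s.1) :
    OK I t.1 ∧ Relation.ReflTransGen (Step J) (MP φ s.1, φ '' s.2) (MP φ t.1, φ '' t.2) := by
  induction h with
  | refl => exact ⟨hM, Relation.ReflTransGen.refl⟩
  | tail _ hst ih =>
    obtain ⟨h1, h2⟩ := ih
    obtain ⟨h3, h4⟩ := step_fwd H hst h1
    exact ⟨h3, h2.tail h4⟩

theorem steps_bwd (H : Hyp I J φ) {s t : (B → B → Prop) × Set B}
    (h : Relation.ReflTransGen (Step J) s t) (M : A → A → Prop) (S : Set A)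
    (hs : s = (MP φ M, φ '' S)) (hM : OK I M) :
    ∃ M' S', t = (MP φ M', φ '' S') ∧ OK I M' ∧ Relation.ReflTransGen (Step I) (M, S) (M', S') := by
  induction h with
  | refl => exact ⟨M, S, hs, hM, Relation.ReflTransGen.refl⟩
  | tail _ hst ih =>
    obtain ⟨M', S', h1, h2, h3⟩ := ih
    obtain ⟨M'', S'', h4, h5, h6⟩ := step_bwd H hst M' S' h1 h2
    exact ⟨M'', S'', h4, h5, h3.tail h6⟩

end Tr

open Tr in
/-- T1: transfer along an embedding. -/
theorem reaches_transfer {A B : Type} (I : Mkt A) (J : Mkt B) (φ : A → B)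
    (hφ : Function.Injective φ) (hsym : ∀ x y, I.opp x y → I.opp y x)
    (hopp : ∀ x y, J.opp x y ↔ ∃ a b, φ a = x ∧ φ b = y ∧ I.opp a b)
    (hr : ∀ a b, I.opp a b → J.r (φ a) (φ b) = I.r a b)
    (M₀ M : A → A → Prop) (hM : ∀ a b, M₀ a b → I.opp a b) :
    Reaches J (Relation.Map M₀ φ φ) (Relation.Map M φ φ) ↔ Reaches I M₀ M := by
  have H : Hyp I J φ := ⟨hφ, hsym, hopp, hr⟩
  constructor
  · rintro ⟨T, h⟩
    obtain ⟨M', S', h1, -, h3⟩ := steps_bwd H h M₀ ∅ (by rw [Set.image_empty]) hM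
    rw [Prod.mk.injEq] at h1
    rw [← mp_inj hφ h1.1] at h3
    exact ⟨S', h3⟩
  · rintro ⟨S, h⟩
    have := (steps_fwd H h hM).2
    simp only [Set.image_empty] at this
    exact ⟨φ '' S, this⟩

end Pool.Agent.H654R3.RVV
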