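import Pool.Agent.H654R3.RVV.EncDefs

/-!
# Semantics of the encoding (task T2, helper825)
-/

set_option autoImplicit false

namespace Pool.Agent.H654R3.RVV

open Pool.Agent.NPC

/-! ### sorting by keys -/

/-- the numbers below `n`, sorted by the key -/
def blist (n : ℕ) (key : ℕ → ℕ) : List ℕ :=
  (List.range 5).flatMap (fun κ => (List.range n).filter (fun y => decide (key y = κ)))

theorem mem_blist {n : ℕ} {key : ℕ → ℕ} (hk : ∀ y, key y < 5) (y : ℕ) :
    y ∈ blist n key ↔ y < n := by
  unfold blist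
  simp only [List.mem_flatMap, List.mem_range, List.mem_filter, decide_eq_true_eq]
  constructor
  · rintro ⟨κ, -, h, -⟩
    exact h
  · intro h
    exact ⟨key y, hk y, h, rfl⟩

theorem blist_nodup (n : ℕ) (key : ℕ → ℕ) : (blist n key).Nodup := by
  unfold blist
  rw [List.nodup_flatMap]
  refine ⟨fun κ _ => List.Nodup.filter _ List.nodup_range, ?_⟩
  refine List.Pairwise.imp ?_ (List.nodup_range (n := 5))
  intro a b hab y hy hy'
  simp only [List.mem_filter, decide_eq_true_eq] at hy hy'
  exact hab (hy.2.symm.trans hy'.2)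

theorem blist_perm {n : ℕ} {key : ℕ → ℕ} (hk : ∀ y, key y < 5) :
    (blist n key).Perm (List.range n) := by
  rw [List.perm_ext_iff_of_nodup (blist_nodup n key) List.nodup_range]
  intro y
  rw [mem_blist hk, List.mem_range]

theorem blist_sorted (n : ℕ) (key : ℕ → ℕ) :
    (blist n key).Pairwise (fun a b => key a ≤ key b) := by
  unfold blist
  rw [List.pairwise_flatMap]
  refine ⟨fun κ _ => ?_, ?_⟩
  · rw [List.pairwise_iff_forall_sublist]
    intro a b hab
    have ha := hab.subset (show a ∈ [a, b] by simp)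
    have hb := hab.subset (show b ∈ [a, b] by simp)
    simp only [List.mem_filter, decide_eq_true_eq] at ha hb
    rw [ha.2, hb.2]
  · refine List.Pairwise.imp ?_ (List.pairwise_lt_range (n := 5))
    intro a b hab x hx y hy
    simp only [List.mem_filter, decide_eq_true_eq] at hx hy
    rw [hx.2, hy.2]
    exact hab.le

theorem blist_idx {n : ℕ} {key : ℕ → ℕ} (hk : ∀ y, key y < 5) {y z : ℕ} (hy : y < n)
    (hz : z < n) (h : key y < key z) : (blist n key).idxOf y < (blist n key).idxOf z := by
  have hy' := (mem_blist (n := n) hk y).2 hy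
  have hz' := (mem_blist (n := n) hk z).2 hz
  by_contra hcon
  rw [not_lt] at hcon
  have h1 := List.idxOf_lt_length_of_mem hy'
  have h2 := List.idxOf_lt_length_of_mem hz'
  rcases hcon.eq_or_lt with h3 | h3
  · have := (List.idxOf_inj hz').1 h3
    rw [this] at h
    exact lt_irrefl _ h
  · have h4 := List.pairwise_iff_getElem.1 (blist_sorted n key) _ _ h2 h1 h3
    rw [List.getElem_idxOf, List.getElem_idxOf] at h4
    omega

/-! ### labels -/

/-- the label of an agent -/
def lab {v m : ℕ} : V v m → Lb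
  | .K i s => (0, i.val, s)
  | .C i s => (0, i.val, s)
  | .A j => (1, j.val, false)
  | .P j => (1, j.val, false)
  | .D j => (2, j.val, false)
  | .Q j => (2, j.val, false)
  | .E j => (3, j.val, false)
  | .F j => (3, j.val, false)

theorem dec_low {v i : ℕ} (s : Bool) (hi : i < v) : dec v (2 * i + s.toNat) = (0, i, s) := by
  unfold dec
  cases s
  · rw [if_pos (by simp; omega)]
    simp
  · rw [if_pos (by simp; omega)]
    have h2 : (2 * i + 1) / 2 = i := by omega
    simp [h2]

theorem dec_high (v j k : ℕ) (hk : k < 3) : dec v (2 * v + 3 * j + k) = (k + 1, j, false) := by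
  unfold dec
  rw [if_neg (by omega)]
  refine Prod.ext ?_ (Prod.ext ?_ rfl)
  · show (2 * v + 3 * j + k - 2 * v) % 3 + 1 = k + 1
    omega
  · show (2 * v + 3 * j + k - 2 * v) / 3 = j
    omega

theorem dec_code {v m : ℕ} (x : V v m) : dec v (code x).2 = lab x := by
  rcases x with ⟨i, s⟩ | ⟨i, s⟩ | j | j | j | j | j | j
  · exact dec_low s i.isLt
  · exact dec_low s i.isLt
  · exact dec_high v j.val 0 (by norm_num)
  · exact dec_high v j.val 1 (by norm_num)
  · exact dec_high v j.val 2 (by norm_num)
  · exact dec_high v j.val 0 (by norm_num)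
  · exact dec_high v j.val 1 (by norm_num)
  · exact dec_high v j.val 2 (by norm_num)

theorem code_fst {v m : ℕ} (x : V v m) : (code x).1 = x.man := by
  cases x <;> rfl

theorem code_lt {v m : ℕ} (x : V v m) : (code x).2 < 2 * v + 3 * m := by
  rcases x with ⟨i, s⟩ | ⟨i, s⟩ | j | j | j | j | j | j
  · have hi := i.isLt
    cases s <;> simp [code] <;> omega
  · have hi := i.isLt
    cases s <;> simp [code] <;> omega
  all_goals
    have hj := j.isLt
    simp only [code]
    omega

theorem code_injective {v m : ℕ} : Function.Injective (code (v := v) (m := m)) := by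
  intro x y h
  have h1 : x.man = y.man := by rw [← code_fst, ← code_fst, h]
  have h2 : lab x = lab y := by rw [← dec_code, ← dec_code, h]
  rcases x with ⟨i, s⟩ | ⟨i, s⟩ | j | j | j | j | j | j <;>
    rcases y with ⟨i', s'⟩ | ⟨i', s'⟩ | j' | j' | j' | j' | j' | j' <;>
    simp_all [V.man, lab, Fin.ext_iff]

theorem code_surj {v m : ℕ} (b : Bool) {n : ℕ} (hn : n < 2 * v + 3 * m) :
    ∃ x : V v m, code x = (b, n) := by
  by_cases h : n < 2 * v
  · have h1 : n / 2 < v := by omega
    by_cases h2 : n % 2 = 1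
    · cases b
      · exact ⟨.C ⟨n / 2, h1⟩ true, by simp only [code, Bool.toNat_true]; congr 1; omega⟩
      · exact ⟨.K ⟨n / 2, h1⟩ true, by simp only [code, Bool.toNat_true]; congr 1; omega⟩
    · cases b
      · exact ⟨.C ⟨n / 2, h1⟩ false, by simp only [code, Bool.toNat_false]; congr 1; omega⟩
      · exact ⟨.K ⟨n / 2, h1⟩ false, by simp only [code, Bool.toNat_false]; congr 1; omega⟩
  · have h1 : (n - 2 * v) / 3 < m := by omega
    have h2 : (n - 2 * v) % 3 = 0 ∨ (n - 2 * v) % 3 = 1 ∨ (n - 2 * v) % 3 = 2 := by omega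
    rcases h2 with h2 | h2 | h2
    · cases b
      · exact ⟨.P ⟨_, h1⟩, by simp only [code]; congr 1; omega⟩
      · exact ⟨.A ⟨_, h1⟩, by simp only [code]; congr 1; omega⟩
    · cases b
      · exact ⟨.Q ⟨_, h1⟩, by simp only [code]; congr 1; omega⟩
      · exact ⟨.D ⟨_, h1⟩, by simp only [code]; congr 1; omega⟩
    · cases b
      · exact ⟨.F ⟨_, h1⟩, by simp only [code]; congr 1; omega⟩
      · exact ⟨.E ⟨_, h1⟩, by simp only [code]; congr 1; omega⟩

/-! ### the keys -/

theorem mkey_lt (φ : CNF) (a b : Lb) : mkey φ a b < 5 := by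
  unfold mkey
  split_ifs <;> omega

theorem wkey_lt (a b : Lb) : wkey a b < 5 := by
  unfold wkey
  split_ifs <;> omega

theorem mkey_lab (φ : CNF) (x y : V (nv φ) (nc φ)) (hx : x.man = true) (hy : y.man = false) :
    mkey φ (lab x) (lab y) = x.key (litF φ) y := by
  rcases x with ⟨i, s⟩ | ⟨i, s⟩ | j | j | j | j | j | j <;>
    rcases y with ⟨i', s'⟩ | ⟨i', s'⟩ | j' | j' | j' | j' | j' | j' <;>
    first
    | (cases hx; done)
    | (cases hy; done)
    | (simp only [lab, mkey, V.key, litF, Fin.ext_iff]; simp; done)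
    | (cases s <;> cases s' <;> simp [lab, mkey, V.key, litF, Fin.ext_iff]; done)
    | (simp only [lab, mkey, V.key, litF, Fin.ext_iff]; split_ifs <;> simp_all; done)

theorem wkey_lab (φ : CNF) (x y : V (nv φ) (nc φ)) (hx : x.man = false) (hy : y.man = true) :
    wkey (lab x) (lab y) = x.key (litF φ) y := by
  rcases x with ⟨i, s⟩ | ⟨i, s⟩ | j | j | j | j | j | j <;>
    rcases y with ⟨i', s'⟩ | ⟨i', s'⟩ | j' | j' | j' | j' | j' | j' <;>
    first
    | (cases hx; done)
    | (cases hy; done)
    | (simp only [lab, wkey, V.key, Fin.ext_iff]; simp; done)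
    | (cases s <;> cases s' <;> simp [lab, wkey, V.key, Fin.ext_iff]; done)

theorem mlist_eq (φ : CNF) (x : ℕ) :
    mlist φ x = blist (nn φ) (fun y => mkey φ (dec (nv φ) x) (dec (nv φ) y)) := rfl

theorem wlist_eq (φ : CNF) (x : ℕ) :
    wlist φ x = blist (nn φ) (fun y => wkey (dec (nv φ) x) (dec (nv φ) y)) := rfl

/-! ### the theorems -/

theorem isInst (φ : CNF) : IsInst (inst φ).1 := by
  refine ⟨by simp [inst], ?_, ?_⟩
  · intro l hl
    simp only [inst, List.mem_map, List.mem_range, List.length_map, List.length_range] at hl ⊢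
    obtain ⟨x, -, rfl⟩ := hl
    rw [mlist_eq]
    exact blist_perm fun y => mkey_lt _ _ _
  · intro l hl
    simp only [inst, List.mem_map, List.mem_range, List.length_map, List.length_range] at hl ⊢
    obtain ⟨x, -, rfl⟩ := hl
    rw [wlist_eq]
    exact blist_perm fun y => wkey_lt _ _

theorem opp_iff (φ : CNF) (x y : Bool × ℕ) : (market (inst φ).1).opp x y ↔
    ∃ a b : V (nv φ) (nc φ), code a = x ∧ code b = y ∧ a.man ≠ b.man := by
  have h0 : (market (inst φ).1).opp x y ↔ x.1 ≠ y.1 ∧ x.2 < nn φ ∧ y.2 < nn φ := by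
    simp [market, inst]
  rw [h0]
  constructor
  · rintro ⟨h1, h2, h3⟩
    obtain ⟨a, ha⟩ := code_surj (v := nv φ) (m := nc φ) x.1 h2
    obtain ⟨b, hb⟩ := code_surj (v := nv φ) (m := nc φ) y.1 h3
    refine ⟨a, b, ha, hb, ?_⟩
    rw [← code_fst, ← code_fst, ha, hb]
    exact h1
  · rintro ⟨a, b, rfl, rfl, h⟩
    rw [code_fst, code_fst]
    exact ⟨h, code_lt a, code_lt b⟩

theorem r_man (φ : CNF) (x y : V (nv φ) (nc φ)) (hx : x.man = true) :
    (absMkt φ).r x y = (blist (nn φ)
      (fun z => mkey φ (lab x) (dec (nv φ) z))).idxOf (code y).2 := by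
  have h1 : (code x).1 = true := by rw [code_fst, hx]
  have h2 : (code x).2 < nn φ := code_lt x
  have h3 : (((List.range (nn φ)).map (mlist φ)).getD (code x).2 []) = mlist φ (code x).2 := by
    rw [List.getD_eq_getElem _ _ (by simpa using h2)]
    simp
  show ((if (code x).1 then (inst φ).1.1 else (inst φ).1.2).getD (code x).2 []).idxOf (code y).2 = _
  rw [h1, if_pos rfl]
  show (((List.range (nn φ)).map (mlist φ)).getD (code x).2 []).idxOf (code y).2 = _
  rw [h3, mlist_eq, dec_code]

theorem r_woman (φ : CNF) (x y : V (nv φ) (nc φ)) (hx : x.man = false) :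
    (absMkt φ).r x y = (blist (nn φ)
      (fun z => wkey (lab x) (dec (nv φ) z))).idxOf (code y).2 := by
  have h1 : (code x).1 = false := by rw [code_fst, hx]
  have h2 : (code x).2 < nn φ := code_lt x
  have h3 : (((List.range (nn φ)).map (wlist φ)).getD (code x).2 []) = wlist φ (code x).2 := by
    rw [List.getD_eq_getElem _ _ (by simpa using h2)]
    simp
  show ((if (code x).1 then (inst φ).1.1 else (inst φ).1.2).getD (code x).2 []).idxOf (code y).2 = _
  rw [h1, if_neg (by simp)]
  show (((List.range (nn φ)).map (wlist φ)).getD (code x).2 []).idxOf (code y).2 = _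
  rw [h3, wlist_eq, dec_code]

theorem absMkt_good (φ : CNF) : Good (absMkt φ) (litF φ) := by
  refine ⟨fun x y => Iff.rfl, ?_, ?_⟩
  · intro x y z hxy hxz hk
    cases hx : x.man
    · have hy : y.man = true := by
        rw [hx] at hxy; simpa using hxy
      have hz : z.man = true := by
        rw [hx] at hxz; simpa using hxz
      rw [r_woman φ x y hx, r_woman φ x z hx]
      refine blist_idx (fun _ => wkey_lt _ _) (code_lt y) (code_lt z) ?_
      rw [dec_code, dec_code, wkey_lab φ x y hx hy, wkey_lab φ x z hx hz]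
      exact hk
    · have hy : y.man = false := by
        rw [hx] at hxy; simpa using hxy
      have hz : z.man = false := by
        rw [hx] at hxz; simpa using hxz
      rw [r_man φ x y hx, r_man φ x z hx]
      refine blist_idx (fun _ => mkey_lt _ _ _) (code_lt y) (code_lt z) ?_
      rw [dec_code, dec_code, mkey_lab φ x y hx hy, mkey_lab φ x z hx hz]
      exact hk
  · intro x y z hxy hxz h
    have hyz : y.man = z.man := by
      cases hx : x.man <;> cases hy : y.man <;> cases hz : z.man <;> simp_all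
    have h2 : (code y).2 = (code z).2 := by
      cases hx : x.man
      · rw [r_woman φ x y hx, r_woman φ x z hx] at h
        exact (List.idxOf_inj ((mem_blist (fun _ => wkey_lt _ _) _).2 (code_lt y))).1 h
      · rw [r_man φ x y hx, r_man φ x z hx] at h
        exact (List.idxOf_inj ((mem_blist (fun _ => mkey_lt _ _ _) _).2 (code_lt y))).1 h
    refine code_injective (Prod.ext ?_ h2)
    rw [code_fst, code_fst, hyz]

theorem ofList_map {v m : ℕ} (g : V v m → Option (V v m)) (pt : ℕ → ℕ)
    (h1 : ∀ x, x.man = true → ∃ y, g x = some y ∧ y.man = false ∧ (code y).2 = pt (code x).2)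
    (h2 : ∀ x y, g x = some y → g y = some x)
    (h3 : ∀ x y, g x = some y → x.man ≠ y.man) :
    ofList ((List.range (2 * v + 3 * m)).map (fun x => (x, pt x))) =
      Relation.Map (rel g) code code := by
  have hmem : ∀ a b : ℕ, (a, b) ∈ ((List.range (2 * v + 3 * m)).map (fun x => (x, pt x))) ↔
      a < 2 * v + 3 * m ∧ b = pt a := by
    intro a b
    simp only [List.mem_map, List.mem_range, Prod.mk.injEq]
    constructor
    · rintro ⟨c, hc, rfl, rfl⟩
      exact ⟨hc, rfl⟩
    · rintro ⟨hc, rfl⟩
      exact ⟨a, hc, rfl, rfl⟩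
  funext a b
  refine propext ?_
  unfold ofList
  rw [hmem, hmem]
  constructor
  · rintro (⟨ha, hb, hn, hp⟩ | ⟨ha, hb, hn, hp⟩)
    · obtain ⟨x, hx⟩ := code_surj (v := v) (m := m) true hn
      obtain ⟨y, hy1, hy2, hy3⟩ := h1 x (by rw [← code_fst, hx])
      refine ⟨x, y, hy1, ?_, ?_⟩
      · rw [hx, ← ha]
      · refine Prod.ext ?_ ?_
        · rw [code_fst, hy2, hb]
        · rw [hy3, hx, hp]
    · obtain ⟨x, hx⟩ := code_surj (v := v) (m := m) true hn
      obtain ⟨y, hy1, hy2, hy3⟩ := h1 x (by rw [← code_fst, hx])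
      refine ⟨y, x, h2 _ _ hy1, ?_, ?_⟩
      · refine Prod.ext ?_ ?_
        · rw [code_fst, hy2, ha]
        · rw [hy3, hx, hp]
      · rw [hx, ← hb]
  · rintro ⟨x, y, hxy, rfl, rfl⟩
    have hxy' : g x = some y := hxy
    have hne := h3 x y hxy'
    cases hx : x.man
    · right
      have hy : y.man = true := by rw [hx] at hne; simpa using hne
      obtain ⟨z, hz1, hz2, hz3⟩ := h1 y hy
      have : z = x := by
        have := h2 x y hxy'
        rw [hz1] at this
        exact Option.some.inj this
      subst this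
      exact ⟨by rw [code_fst, hx], by rw [code_fst, hy], code_lt y, hz3⟩
    · left
      have hy : y.man = false := by rw [hx] at hne; simpa using hne
      obtain ⟨z, hz1, hz2, hz3⟩ := h1 x hx
      have : z = y := by
        rw [hz1] at hxy'
        exact Option.some.inj hxy'
      subst this
      exact ⟨by rw [code_fst, hx], by rw [code_fst, hy], code_lt x, hz3⟩

theorem pt0_low {v i : ℕ} (s : Bool) (hi : i < v) :
    2 * i + s.toNat = pt0 v (2 * i + s.toNat) := by
  unfold pt0
  rw [if_pos (by cases s <;> simp <;> omega)]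

theorem pt0_zero (v j : ℕ) : 2 * v + 3 * j + 2 = pt0 v (2 * v + 3 * j) := by
  unfold pt0
  rw [if_neg (by omega), if_pos (by omega)]

theorem pt0_one (v j : ℕ) : 2 * v + 3 * j = pt0 v (2 * v + 3 * j + 1) := by
  unfold pt0
  rw [if_neg (by omega), if_neg (by omega)]
  omega

theorem pt0_two (v j : ℕ) : 2 * v + 3 * j + 1 = pt0 v (2 * v + 3 * j + 2) := by
  unfold pt0
  rw [if_neg (by omega), if_neg (by omega)]
  omega

theorem pt1_low {v i : ℕ} (s : Bool) (hi : i < v) :
    2 * i + (!s).toNat = pt1 v (2 * i + s.toNat) := by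
  unfold pt1
  cases s
  · rw [if_pos (by simp; omega), if_pos (by simp)]
    simp
  · rw [if_pos (by simp; omega), if_neg (by simp)]
    simp

theorem pt1_high {v x : ℕ} (hx : ¬ x < 2 * v) : x = pt1 v x := by
  unfold pt1
  rw [if_neg hx]

theorem ofList_init (φ : CNF) : ofList (inst φ).2.1 =
    Relation.Map (rel (init (v := nv φ) (m := nc φ))) code code := by
  refine ofList_map (v := nv φ) (m := nc φ) init (pt0 (nv φ)) ?_ ?_ ?_
  · intro x hx
    rcases x with ⟨i, s⟩ | ⟨i, s⟩ | j | j | j | j | j | j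
    · exact ⟨_, rfl, rfl, pt0_low s i.isLt⟩
    · simp [V.man] at hx
    · exact ⟨_, rfl, rfl, pt0_zero _ _⟩
    · exact ⟨_, rfl, rfl, pt0_one _ _⟩
    · exact ⟨_, rfl, rfl, pt0_two _ _⟩
    · simp [V.man] at hx
    · simp [V.man] at hx
    · simp [V.man] at hx
  · intro x y h
    rcases x with ⟨i, s⟩ | ⟨i, s⟩ | j | j | j | j | j | j <;>
      (obtain rfl := Option.some.inj h; rfl)
  · intro x y h
    rcases x with ⟨i, s⟩ | ⟨i, s⟩ | j | j | j | j | j | j <;>
      (obtain rfl := Option.some.inj h; simp [V.man])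

theorem ofList_goal (φ : CNF) : ofList (inst φ).2.2 =
    Relation.Map (rel (goal (v := nv φ) (m := nc φ))) code code := by
  refine ofList_map (v := nv φ) (m := nc φ) goal (pt1 (nv φ)) ?_ ?_ ?_
  · intro x hx
    rcases x with ⟨i, s⟩ | ⟨i, s⟩ | j | j | j | j | j | j
    · exact ⟨_, rfl, rfl, pt1_low s i.isLt⟩
    · simp [V.man] at hx
    · exact ⟨_, rfl, rfl, pt1_high (by simp only [code]; omega)⟩
    · exact ⟨_, rfl, rfl, pt1_high (by simp only [code]; omega)⟩
    · exact ⟨_, rfl, rfl, pt1_high (by simp only [code]; omega)⟩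
    · simp [V.man] at hx
    · simp [V.man] at hx
    · simp [V.man] at hx
  · intro x y h
    rcases x with ⟨i, s⟩ | ⟨i, s⟩ | j | j | j | j | j | j <;>
      (obtain rfl := Option.some.inj h; simp [goal])
  · intro x y h
    rcases x with ⟨i, s⟩ | ⟨i, s⟩ | j | j | j | j | j | j <;>
      (obtain rfl := Option.some.inj h; simp [V.man])

end Pool.Agent.H654R3.RVV
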