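import Pool.Agent.H654R3.RVV.EncDefs

/-!
# Polynomial time and satisfiability
-/

namespace Pool.Agent.H654R3.RVV

open Pool.Agent.NPC

/-- T3: satisfiability -/
theorem sat_iff (φ : CNF) : SAT φ ↔ Sat (litF φ) := by
  classical
  constructor
  · rintro ⟨τ, hτ⟩
    refine ⟨fun i => τ ((vars φ)[i.val]'i.2), fun j => ?_⟩
    obtain ⟨l, hl, hl'⟩ := hτ (φ[j.val]'j.2) (List.getElem_mem _)
    have hv : l.2 ∈ vars φ := by
      unfold vars
      rw [List.mem_flatMap]
      exact ⟨_, List.getElem_mem j.2, List.mem_map.2 ⟨l, hl, rfl⟩⟩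
    have hi := getElem?_index hv
    obtain ⟨hlt, hget⟩ := List.getElem?_eq_some_iff.1 hi
    refine ⟨⟨NPC.index (vars φ) l.2, hlt⟩, ?_⟩
    unfold litF litN
    rw [List.any_eq_true]
    refine ⟨l, ?_, ?_⟩
    · rw [List.getD_eq_getElem _ _ j.2]
      exact hl
    · simp only [Bool.and_eq_true, decide_eq_true_eq, and_true]
      exact hl'.symm.trans (congrArg τ hget.symm)
  · rintro ⟨α, hα⟩
    refine ⟨fun x => if h : NPC.index (vars φ) x < nv φ then α ⟨_, h⟩ else false, ?_⟩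
    intro c hc
    obtain ⟨j, hj, rfl⟩ := List.mem_iff_getElem.1 hc
    obtain ⟨i, hi⟩ := hα ⟨j, hj⟩
    unfold litF litN at hi
    rw [List.any_eq_true] at hi
    obtain ⟨l, hl, hl'⟩ := hi
    rw [List.getD_eq_getElem _ _ hj] at hl
    simp only [Bool.and_eq_true, decide_eq_true_eq] at hl'
    refine ⟨l, hl, ?_⟩
    have h1 : NPC.index (vars φ) l.2 < nv φ := by rw [hl'.2]; exact i.2
    simp only [dif_pos h1]
    rw [hl'.1]
    congr 1
    exact Fin.ext hl'.2

theorem vars_poly : Poly vars := by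
  unfold vars
  fun_prop

theorem nv_uPoly : UPoly nv := UPoly.length vars_poly

theorem nc_uPoly : UPoly nc := UPoly.length NPC.Poly.id

theorem nn_uPoly : UPoly nn :=
  UPoly.add (UPoly.mul (UPoly.const 2) nv_uPoly) (UPoly.mul (UPoly.const 3) nc_uPoly)

section

variable {α : Type} [TEnc α]

theorem vars_poly' {f : α → CNF} (hf : Poly f) : Poly (fun a => vars (f a)) := vars_poly.comp hf

theorem litN_poly {f : α → CNF} {j i : α → ℕ} {s : α → Bool} (hf : Poly f) (hj : Poly j)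
    (hi : Poly i) (hs : Poly s) : Poly (fun a => litN (f a) (j a) (i a) (s a)) := by
  have h0 : Poly (fun p : α × (Bool × ℕ) => vars (f p.1)) :=
    vars_poly' (hf.comp (NPC.Poly.fst NPC.Poly.id))
  have h1 : Poly (fun p : α × (Bool × ℕ) => NPC.index (vars (f p.1)) p.2.2) :=
    NPC.Poly.index h0 (NPC.Poly.snd (NPC.Poly.snd NPC.Poly.id))
  unfold litN
  refine NPC.Poly.any (p := fun a l => decide (l.1 = s a) &&
    decide (NPC.index (vars (f a)) l.2 = i a)) (NPC.Poly.getD hf hj (NPC.Poly.const _)) ?_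
  fun_prop

theorem dec_poly {v x : α → ℕ} (hv : Poly v) (hx : Poly x) : Poly (fun a => dec (v a) (x a)) := by
  unfold dec
  fun_prop

theorem mkey_poly {f : α → CNF} {x y : α → Lb} (hf : Poly f) (hx : Poly x) (hy : Poly y) :
    Poly (fun a => mkey (f a) (x a) (y a)) := by
  have h1 : Poly (fun a => litN (f a) (x a).2.1 (y a).2.1 (y a).2.2) :=
    litN_poly hf (by fun_prop) (by fun_prop) (by fun_prop)
  unfold mkey
  fun_prop

theorem wkey_poly {x y : α → Lb} (hx : Poly x) (hy : Poly y) :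
    Poly (fun a => wkey (x a) (y a)) := by
  unfold wkey
  fun_prop

theorem pt0_poly {v x : α → ℕ} (hv : Poly v) (hx : Poly x) : Poly (fun a => pt0 (v a) (x a)) := by
  unfold pt0
  fun_prop

theorem pt1_poly {v x : α → ℕ} (hv : Poly v) (hx : Poly x) : Poly (fun a => pt1 (v a) (x a)) := by
  unfold pt1
  fun_prop

theorem mlist_poly {f : α → CNF} {x : α → ℕ} (hf : Poly f) (hx : Poly x) :
    Poly (fun a => mlist (f a) (x a)) := by
  have hv : Poly (fun p : (α × ℕ) × ℕ => nv (f p.1.1)) :=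
    (nv_uPoly.comp (hf.comp (NPC.Poly.fst (NPC.Poly.fst NPC.Poly.id)))).toPoly
  have h1 : Poly (fun p : (α × ℕ) × ℕ => mkey (f p.1.1) (dec (nv (f p.1.1)) (x p.1.1))
      (dec (nv (f p.1.1)) p.2)) :=
    mkey_poly (hf.comp (NPC.Poly.fst (NPC.Poly.fst NPC.Poly.id)))
      (dec_poly hv (hx.comp (NPC.Poly.fst (NPC.Poly.fst NPC.Poly.id)))) (dec_poly hv (NPC.Poly.snd NPC.Poly.id))
  have h2 : Poly (fun p : α × ℕ => List.range (nn (f p.1))) :=
    (nn_uPoly.comp (hf.comp (NPC.Poly.fst NPC.Poly.id))).range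
  unfold mlist
  refine NPC.Poly.flatMap (F := fun a κ => (List.range (nn (f a))).filter
    (fun y => decide (mkey (f a) (dec (nv (f a)) (x a)) (dec (nv (f a)) y) = κ)))
    (NPC.Poly.const _) ?_
  refine NPC.Poly.filter (p := fun (q : α × ℕ) y =>
    decide (mkey (f q.1) (dec (nv (f q.1)) (x q.1)) (dec (nv (f q.1)) y) = q.2)) h2 ?_
  fun_prop

theorem wlist_poly {f : α → CNF} {x : α → ℕ} (hf : Poly f) (hx : Poly x) :
    Poly (fun a => wlist (f a) (x a)) := by
  have hv : Poly (fun p : (α × ℕ) × ℕ => nv (f p.1.1)) :=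
    (nv_uPoly.comp (hf.comp (NPC.Poly.fst (NPC.Poly.fst NPC.Poly.id)))).toPoly
  have h1 : Poly (fun p : (α × ℕ) × ℕ => wkey (dec (nv (f p.1.1)) (x p.1.1))
      (dec (nv (f p.1.1)) p.2)) :=
    wkey_poly (dec_poly hv (hx.comp (NPC.Poly.fst (NPC.Poly.fst NPC.Poly.id))))
      (dec_poly hv (NPC.Poly.snd NPC.Poly.id))
  have h2 : Poly (fun p : α × ℕ => List.range (nn (f p.1))) :=
    (nn_uPoly.comp (hf.comp (NPC.Poly.fst NPC.Poly.id))).range
  unfold wlist
  refine NPC.Poly.flatMap (F := fun a κ => (List.range (nn (f a))).filter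
    (fun y => decide (wkey (dec (nv (f a)) (x a)) (dec (nv (f a)) y) = κ)))
    (NPC.Poly.const _) ?_
  refine NPC.Poly.filter (p := fun (q : α × ℕ) y =>
    decide (wkey (dec (nv (f q.1)) (x q.1)) (dec (nv (f q.1)) y) = q.2)) h2 ?_
  fun_prop

end

/-- T3: polynomial time -/
theorem inst_poly : Poly inst := by
  have h0 : Poly (fun φ : CNF => List.range (nn φ)) := nn_uPoly.range
  have hv : Poly (fun p : CNF × ℕ => nv p.1) := (nv_uPoly.comp (NPC.Poly.fst NPC.Poly.id)).toPoly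
  have h1 : Poly (fun p : CNF × ℕ => mlist p.1 p.2) :=
    mlist_poly (NPC.Poly.fst NPC.Poly.id) (NPC.Poly.snd NPC.Poly.id)
  have h2 : Poly (fun p : CNF × ℕ => wlist p.1 p.2) :=
    wlist_poly (NPC.Poly.fst NPC.Poly.id) (NPC.Poly.snd NPC.Poly.id)
  have h3 : Poly (fun p : CNF × ℕ => (p.2, pt0 (nv p.1) p.2)) :=
    NPC.Poly.pair (NPC.Poly.snd NPC.Poly.id) (pt0_poly hv (NPC.Poly.snd NPC.Poly.id))
  have h4 : Poly (fun p : CNF × ℕ => (p.2, pt1 (nv p.1) p.2)) :=
    NPC.Poly.pair (NPC.Poly.snd NPC.Poly.id) (pt1_poly hv (NPC.Poly.snd NPC.Poly.id))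
  unfold inst
  exact NPC.Poly.pair (NPC.Poly.pair (NPC.Poly.map (F := fun φ x => mlist φ x) h0 h1)
    (NPC.Poly.map (F := fun φ x => wlist φ x) h0 h2))
    (NPC.Poly.pair (NPC.Poly.map (F := fun φ x => (x, pt0 (nv φ) x)) h0 h3)
      (NPC.Poly.map (F := fun φ x => (x, pt1 (nv φ) x)) h0 h4))

end Pool.Agent.H654R3.RVV
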