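import Pool.Agent.NPC.Dec
import Pool.Agent.H654R3.RVV.Sound
import Pool.Agent.H654R3.RVV.Comp6
import Pool.Agent.H654R3.RVV.T1
import Pool.Agent.H654R3.RVV.T2
import Pool.Agent.H654R3.RVV.T3

/-!
# `REACH` is NP-hard
-/

namespace Pool.Agent.H654R3.RVV

open Pool.Agent.NPC

section abstract

variable {v m : ℕ}

theorem init_man (a b : V v m) (h : rel init a b) : a.man ≠ b.man := by
  cases a <;> simp only [rel, init, Option.some.injEq] at h <;> subst h <;> simp [V.man]

theorem goal_man (a b : V v m) (h : rel goal a b) : a.man ≠ b.man := by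
  cases a <;> simp only [rel, goal, Option.some.injEq] at h <;> subst h <;> simp [V.man]

theorem init_symm (a b : V v m) (h : rel init a b) : rel init b a := by
  cases a <;> simp only [rel, init, Option.some.injEq] at h <;> subst h <;> simp [rel, init]

theorem goal_symm (a b : V v m) (h : rel goal a b) : rel goal b a := by
  cases a <;> simp only [rel, goal, Option.some.injEq] at h <;> subst h <;> simp [rel, goal]

/-- the final matching is stable -/
theorem goal_stable {I : Mkt (V v m)} {lit : Fin m → Fin v → Bool → Bool} (hI : Good I lit) :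
    Stable I (rel goal) := by
  intro x y hB
  have hop := (hI.opp _ _).1 hB.1
  have key : ∀ z : V v m, ∃ c, rel goal z c := by
    intro z
    cases z <;> exact ⟨_, rfl⟩
  obtain ⟨c, hc⟩ := key x
  obtain ⟨d, hd⟩ := key y
  have h1 := hB.le1 hI hc (goal_man _ _ hc)
  have h2 := hB.le2 hI hd (goal_man _ _ hd)
  cases x <;> cases y <;> simp only [V.man, ne_eq, not_true_eq_false] at hop <;>
    simp only [rel, goal, Option.some.injEq] at hc hd <;> subst hc <;> subst hd <;>
    simp only [V.key] at h1 h2 <;>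
    simp_all
  all_goals split_ifs at h1 h2

end abstract

variable (φ : CNF)

theorem hyp : Tr.Hyp (absMkt φ) (market (inst φ).1) code :=
  ⟨code_injective, fun _ _ h => Ne.symm h, fun x y => opp_iff φ x y, fun _ _ _ => rfl⟩

theorem isMatching_map {g : V (nv φ) (nc φ) → Option (V (nv φ) (nc φ))}
    (hs : ∀ a b, rel g a b → rel g b a) (hm : ∀ a b, rel g a b → a.man ≠ b.man) :
    IsMatching (market (inst φ).1) (Relation.Map (rel g) code code) := by
  refine ⟨?_, ?_, ?_⟩
  · rintro x y ⟨a, b, h, rfl, rfl⟩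
    exact ⟨b, a, hs _ _ h, rfl, rfl⟩
  · rintro x y ⟨a, b, h, rfl, rfl⟩
    exact (opp_iff φ _ _).2 ⟨a, b, rfl, rfl, hm _ _ h⟩
  · rintro x y z ⟨a, b, h, rfl, rfl⟩ ⟨a', c, h', e, rfl⟩
    rw [code_injective e] at h'
    have h1 : some b = some c := h.symm.trans h'
    rw [Option.some.inj h1]

/-- the instance is as required -/
theorem legal : Legal (inst φ) := by
  refine ⟨isInst φ, ?_, ?_, ?_⟩
  · rw [ofList_init]
    exact isMatching_map φ init_symm init_man
  · rw [ofList_goal]
    exact isMatching_map φ goal_symm goal_man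
  · rw [ofList_goal]
    intro x y hB
    obtain ⟨a, b, rfl, rfl⟩ := Tr.blocks_range (hyp φ) hB
    rw [Tr.blocks_iff (hyp φ) (fun a b h => goal_man a b h)] at hB
    exact goal_stable (absMkt_good φ) a b hB

theorem reaches_iff :
    Reaches (market (inst φ).1) (ofList (inst φ).2.1) (ofList (inst φ).2.2) ↔ SAT φ := by
  rw [ofList_init, ofList_goal, reaches_transfer (absMkt φ) (market (inst φ).1) code
    code_injective (fun _ _ h => Ne.symm h) (fun x y => opp_iff φ x y) (fun _ _ _ => rfl)
    (rel init) (rel goal) (fun a b h => init_man a b h), sat_iff]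
  exact ⟨sound (absMkt_good φ), complete (absMkt_good φ)⟩

theorem hardPr : HardPr Legal (fun x => Reaches (market x.1) (ofList x.2.1) (ofList x.2.2)) :=
  hardI_SAT.toHardPr.trans inst_poly (fun φ _ => legal φ) (fun φ _ => (reaches_iff φ).symm)

theorem hardI : HardI REACH :=
  hardI_SAT.trans inst_poly (fun φ => ⟨fun h => ⟨legal φ, (reaches_iff φ).2 h⟩,
    fun h => (reaches_iff φ).1 h.2⟩)

theorem main : (∀ L : Set (List Bool), InNP L → ∃ f : List Bool → Inp,
      PolyTime (fun x => bits (f x)) ∧ (∀ x, Legal (f x)) ∧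
      ∀ x, x ∈ L ↔ Reaches (market (f x).1) (ofList (f x).2.1) (ofList (f x).2.2)) ∧
    NPHard (lang REACH) ∧
    (InP (lang REACH) → ∀ L : Set (List Bool), InNP L → InP L) := by
  refine ⟨?_, hardI.toNPHardP, NPHard.collapse (L := lang REACH) hardI.toNPHardP⟩
  intro L hL
  obtain ⟨f, h1, h2, h3⟩ := hardPr L hL
  exact ⟨f, PC.toPolyTime h1, h2, h3⟩

end Pool.Agent.H654R3.RVV
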