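import Pool.Agent.H654R3.RVV.Defs

/-!
# The gadgets

For each variable `i` there are two men `K i s` and two women `C i s` (`s` is a sign, `C i s` stands
for the literal `(i, s)`), for each clause `j` three men `A j, D j, E j` and three women
`P j, Q j, F j`.  The relation `lit j i s` says that the literal `(i, s)` occurs in clause `j`.
-/

namespace Pool.Agent.H654R3.RVV

/-- The agents. -/
inductive V (v m : ℕ) : Type
  | K (i : Fin v) (s : Bool)
  | C (i : Fin v) (s : Bool)
  | A (j : Fin m)
  | D (j : Fin m)
  | E (j : Fin m)
  | P (j : Fin m)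
  | Q (j : Fin m)
  | F (j : Fin m)
  deriving DecidableEq

variable {v m : ℕ}

/-- The sex. -/
def V.man : V v m → Bool
  | .K _ _ => true
  | .A _ => true
  | .D _ => true
  | .E _ => true
  | .C _ _ => false
  | .P _ => false
  | .Q _ => false
  | .F _ => false

/-- The rough rank of the second agent in the list of the first; agents of rough rank `4` are in
arbitrary order. -/
def V.key (lit : Fin m → Fin v → Bool → Bool) : V v m → V v m → ℕ
  | .K i s, .C i' s' => if i = i' then (if s' = s then 1 else 0) else 4
  | .C i s, .K i' s' => if i = i' then (if s' = s then 1 else 0) else 4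
  | .A j, .P j' => if j = j' then 0 else 4
  | .A j, .C i s => if lit j i s then 1 else 4
  | .A j, .Q j' => if j = j' then 2 else 4
  | .A j, .F j' => if j = j' then 3 else 4
  | .D j, .Q j' => if j = j' then 0 else 4
  | .D j, .P j' => if j = j' then 1 else 4
  | .E j, .F j' => if j = j' then 0 else 4
  | .E j, .Q j' => if j = j' then 1 else 4
  | .P j, .D j' => if j = j' then 0 else 4
  | .P j, .A j' => if j = j' then 1 else 4
  | .Q j, .A j' => if j = j' then 0 else 4
  | .Q j, .E j' => if j = j' then 1 else 4
  | .Q j, .D j' => if j = j' then 2 else 4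
  | .F j, .A j' => if j = j' then 0 else 4
  | .F j, .E j' => if j = j' then 1 else 4
  | _, _ => 4

/-- The ranks `I.r` refine the rough ranks. -/
structure Good (I : Mkt (V v m)) (lit : Fin m → Fin v → Bool → Bool) : Prop where
  opp : ∀ x y, I.opp x y ↔ x.man ≠ y.man
  key : ∀ x y z, x.man ≠ y.man → x.man ≠ z.man → x.key lit y < x.key lit z → I.r x y < I.r x z
  inj : ∀ x y z, x.man ≠ y.man → x.man ≠ z.man → I.r x y = I.r x z → y = z

/-- Satisfiability. -/
def Sat (lit : Fin m → Fin v → Bool → Bool) : Prop :=
  ∃ α : Fin v → Bool, ∀ j, ∃ i, lit j i (α i) = true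

/-- The matching given by a function. -/
def rel (g : V v m → Option (V v m)) (x y : V v m) : Prop := g x = some y

/-- The matching `M₀`. -/
def init : V v m → Option (V v m)
  | .K i s => some (.C i s)
  | .C i s => some (.K i s)
  | .A j => some (.F j)
  | .F j => some (.A j)
  | .E j => some (.Q j)
  | .Q j => some (.E j)
  | .D j => some (.P j)
  | .P j => some (.D j)

/-- The matching `M`. -/
def goal : V v m → Option (V v m)
  | .K i s => some (.C i (!s))
  | .C i s => some (.K i (!s))
  | .A j => some (.P j)
  | .P j => some (.A j)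
  | .D j => some (.Q j)
  | .Q j => some (.D j)
  | .E j => some (.F j)
  | .F j => some (.E j)

end Pool.Agent.H654R3.RVV
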