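import Pool.Agent.H654R3.RVV.EncDefs

/-!
# Stubs
-/

namespace Pool.Agent.H654R3.RVV

open Pool.Agent.NPC

/-- T1: transfer along an embedding. -/
theorem reaches_transfer {A B : Type} (I : Mkt A) (J : Mkt B) (φ : A → B)
    (hφ : Function.Injective φ) (hsym : ∀ x y, I.opp x y → I.opp y x)
    (hopp : ∀ x y, J.opp x y ↔ ∃ a b, φ a = x ∧ φ b = y ∧ I.opp a b)
    (hr : ∀ a b, I.opp a b → J.r (φ a) (φ b) = I.r a b)
    (M₀ M : A → A → Prop) (hM : ∀ a b, M₀ a b → I.opp a b) :
    Reaches J (Relation.Map M₀ φ φ) (Relation.Map M φ φ) ↔ Reaches I M₀ M := by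
  sorry

/-- T2: the instance is an instance. -/
theorem isInst (φ : CNF) : IsInst (inst φ).1 := by
  sorry

/-- T2: the numbering is injective -/
theorem code_injective {v m : ℕ} : Function.Injective (code (v := v) (m := m)) := by
  sorry

/-- T2: opposite sexes. -/
theorem opp_iff (φ : CNF) (x y : Bool × ℕ) : (market (inst φ).1).opp x y ↔
    ∃ a b : V (nv φ) (nc φ), code a = x ∧ code b = y ∧ a.man ≠ b.man := by
  sorry

/-- T2: the abstract market is good. -/
theorem absMkt_good (φ : CNF) : Good (absMkt φ) (litF φ) := by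
  sorry

/-- T2: the matching `M₀`. -/
theorem ofList_init (φ : CNF) : ofList (inst φ).2.1 =
    Relation.Map (rel (init (v := nv φ) (m := nc φ))) code code := by
  sorry

/-- T2: the matching `M`. -/
theorem ofList_goal (φ : CNF) : ofList (inst φ).2.2 =
    Relation.Map (rel (goal (v := nv φ) (m := nc φ))) code code := by
  sorry

/-- T3: polynomial time -/
theorem inst_poly : Poly inst := by
  sorry

/-- T3: satisfiability -/
theorem sat_iff (φ : CNF) : SAT φ ↔ Sat (litF φ) := by
  sorry

end Pool.Agent.H654R3.RVV
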